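import Pool.Agent.J4H59.PI.Cone
import Pool.Agent.J4H59.PF.CohQ

/-!
# Derivations with values in the functions over finitely many translates of an invariant set of cells

Here `H` is a subgroup in which `N` is commensurated, and `R` is an `N`-invariant set of cells in
`H ⧸ N`.
-/

set_option autoImplicit false
set_option linter.unusedSectionVars false

open scoped Classical

namespace Pool.Agent.J4H59.PI

open Pool.Agent.Helper386.PD3 Pool.Agent.J4H59.PD Pool.Agent.J4H59.PE Pool.Agent.J4H59.PF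

noncomputable section

variable {G : Type} [Group G] {N H : Subgroup G} {I : Type}

/-- The potential is generic outside of finitely many translates of `R`, over one coset of `H`. -/
theorem small_coset (𝒱 : Vq N (OmI I G)) (hp : ∀ x : OmI I G, 𝒱.p x = (x.2 : G ⧸ N))
    (hNH : N ≤ H) (R : Set (G ⧸ N)) (hR : ∀ c ∈ R, pu H c = ((1 : G) : G ⧸ H))
    (hRN : ∀ n ∈ N, ∀ c ∈ R, n • c ∈ R) {u : N} (hu1 : (u : G) ≠ 1)
    (hpow : ∀ h ∈ H, ∃ e : ℕ, 0 < e ∧ (h⁻¹ * (u : G) * h) ^ e ∈ N)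
    (htf : ∀ (x : G) (k : ℤ), k ≠ 0 → x ^ k = 1 → x = 1)
    (δ : G → 𝒱.MQ (le_refl N) R) (φ c : I → G → ℚ)
    (hφ : ∀ (g : G) i x, φ i (g⁻¹ * x) - φ i x = (δ g : FQ (OmI I G)) (omk i x))
    (hc : ∀ i y, {n : N | φ i (y * n) ≠ c i y}.Finite) (a : G ⧸ H) :
    ∃ T : Finset G, ∀ i (x : G), (x : G ⧸ H) = a → φ i x ≠ c i x →
      ∃ g ∈ T, g⁻¹ • (x : G ⧸ N) ∈ R := by
  let ua : G := rp a * u * (rp a)⁻¹
  have hfix : ∀ g : G, (g : G ⧸ H) = a → ∃ e : ℕ, 0 < e ∧ (g⁻¹ * ua * g) ^ e ∈ N := by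
    intro g hg
    have hk : (rp a)⁻¹ * g ∈ H := by rw [← QuotientGroup.eq, mk_rp, hg]
    obtain ⟨e, he, h1⟩ := hpow _ hk
    refine ⟨e, he, ?_⟩
    have h2 : ((rp a)⁻¹ * g)⁻¹ * (u : G) * ((rp a)⁻¹ * g) = g⁻¹ * ua * g := by
      change _ = g⁻¹ * (rp a * u * (rp a)⁻¹) * g
      group
    rwa [h2] at h1
  have hua : ∀ j : ℤ, ua ^ j • a = a := by
    intro j
    have h1 : ua ∈ MulAction.stabilizer G a := by
      rw [MulAction.mem_stabilizer_iff]
      have h2 : ua • ((rp a : G) : G ⧸ H) = ((rp a : G) : G ⧸ H) := by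
        change ((ua * rp a : G) : G ⧸ H) = _
        rw [eq_comm, QuotientGroup.eq]
        have h3 : (rp a)⁻¹ * (ua * rp a) = (u : G) := by
          change (rp a)⁻¹ * (rp a * u * (rp a)⁻¹ * rp a) = _
          group
        rw [h3]
        exact hNH u.2
      rwa [mk_rp] at h2
    exact (MulAction.stabilizer G a).zpow_mem h1 j
  -- the potential is generic if the orbit avoids the support
  have hgen : ∀ i (x : G), (x : G ⧸ H) = a →
      (∀ j : ℤ, ua ^ j • (x : G ⧸ N) ∉ 𝒱.p '' spq (δ ua⁻¹ : FQ (OmI I G))) → φ i x = c i x := by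
    intro i x hxa hj
    have hstep : ∀ j : ℤ, φ i (ua ^ (j + 1) * x) = φ i (ua ^ j * x) := by
      intro j
      have h1 := hφ ua⁻¹ i (ua ^ j * x)
      have h2 : (δ ua⁻¹ : FQ (OmI I G)) (omk i (ua ^ j * x)) = 0 := by
        by_contra hcon
        apply hj j
        refine ⟨omk i (ua ^ j * x), hcon, ?_⟩
        rw [hp]
        rfl
      have h3 : ua⁻¹⁻¹ * (ua ^ j * x) = ua ^ (j + 1) * x := by
        rw [inv_inv, ← mul_assoc, add_comm j 1, zpow_one_add]
      rw [h2, h3] at h1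
      linarith
    have hall : ∀ j : ℤ, φ i (ua ^ j * x) = φ i x := by
      intro j
      induction j using Int.induction_on with
      | zero => rw [zpow_zero, one_mul]
      | succ j ih => rw [hstep, ih]
      | pred j ih =>
        rw [← ih]
        have h1 := hstep (-(j : ℤ) - 1)
        rw [sub_add_cancel] at h1
        exact h1.symm
    obtain ⟨e, he, heN⟩ := hfix x hxa
    let n : N := ⟨_, heN⟩
    have hn1 : (n : G) ≠ 1 := by
      intro h1
      have h1 : (x⁻¹ * ua * x) ^ e = 1 := h1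
      have h2 : x⁻¹ * ua * x = 1 := htf _ e (by exact_mod_cast he.ne') (by
        rw [zpow_natCast]
        exact h1)
      apply hu1
      have h4 : (u : G) = (rp a)⁻¹ * (x * (x⁻¹ * ua * x) * x⁻¹) * rp a := by
        change _ = (rp a)⁻¹ * (x * (x⁻¹ * (rp a * u * (rp a)⁻¹) * x) * x⁻¹) * rp a
        group
      rw [h4, h2]
      group
    have hord : ∀ k : ℤ, k ≠ 0 → (n : G) ^ k ≠ 1 := fun k hk h1 => hn1 (htf _ k hk h1)
    have hinj : Function.Injective fun k : ℤ => n ^ k := by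
      intro k l hkl
      have h1 : (n : G) ^ k = (n : G) ^ l := congrArg Subtype.val hkl
      exact infinite_order hord 1 (by simpa using h1)
    obtain ⟨_, ⟨k, rfl⟩, hk⟩ := (Set.infinite_range_of_injective hinj).exists_notMem_finite (hc i x)
    have hk : φ i (x * ((n ^ k : N) : G)) = c i x := not_not.1 hk
    rw [← hk, ← hall (e * k)]
    congr 1
    change _ = x * ((x⁻¹ * ua * x) ^ e) ^ k
    have h2 := conj_zpow (a := x⁻¹) (b := ua) (i := (e : ℤ) * k)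
    rw [inv_inv] at h2
    rw [← zpow_natCast, ← zpow_mul, h2]
    group
  obtain ⟨T0, hT0⟩ := (δ ua⁻¹).2.2.2
  have hex : ∀ g : G, ∃ e : ℕ, (g : G ⧸ H) = a → 0 < e ∧ (g⁻¹ * ua * g) ^ e ∈ N := by
    intro g
    by_cases hg : (g : G ⧸ H) = a
    · obtain ⟨e, he⟩ := hfix g hg
      exact ⟨e, fun _ => he⟩
    · exact ⟨0, fun h => absurd h hg⟩
  choose e he using hex
  refine ⟨T0.biUnion fun g => (Finset.range (e g)).image fun r : ℕ => ua ^ r * g,
    fun i x hxa hne => ?_⟩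
  have h1 : ∃ j : ℤ, ua ^ j • (x : G ⧸ N) ∈ 𝒱.p '' spq (δ ua⁻¹ : FQ (OmI I G)) := by
    by_contra hcon
    push Not at hcon
    exact hne (hgen i x hxa hcon)
  obtain ⟨j, ⟨y, hy, hyx⟩⟩ := h1
  obtain ⟨g, hg, hgR⟩ := hT0 y hy
  rw [puN, hyx] at hgR
  have hga : (g : G ⧸ H) = a := by
    have h2 := hR _ hgR
    rw [pu_smul hNH, pu_smul hNH, pu_mk hNH, hxa, hua, inv_smul_eq_iff] at h2
    rw [h2]
    change (g : G ⧸ H) = ((g * 1 : G) : G ⧸ H)
    rw [mul_one]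
  obtain ⟨he0, heN⟩ := he g hga
  have he0' : (e g : ℤ) ≠ 0 := by exact_mod_cast he0.ne'
  obtain ⟨r, hr⟩ := Int.eq_ofNat_of_zero_le (Int.emod_nonneg (-j) he0')
  have hlt : r < e g := by
    have := Int.emod_lt_of_pos (-j) (by exact_mod_cast he0 : (0 : ℤ) < e g)
    omega
  refine ⟨ua ^ r * g, Finset.mem_biUnion.2 ⟨g, hg, Finset.mem_image.2
    ⟨r, Finset.mem_range.2 hlt, rfl⟩⟩, ?_⟩
  have hn : ((g⁻¹ * ua * g) ^ (e g)) ^ ((-j) / (e g : ℤ)) ∈ N := N.zpow_mem heN _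
  have h3 := hRN _ hn _ hgR
  have h4 : ((g⁻¹ * ua * g) ^ (e g)) ^ ((-j) / (e g : ℤ)) • (g⁻¹ • (ua ^ j • (x : G ⧸ N))) =
      (ua ^ r * g)⁻¹ • (x : G ⧸ N) := by
    rw [← mul_smul, ← mul_smul]
    congr 1
    have h5 := conj_zpow (a := g⁻¹) (b := ua) (i := (e g : ℤ) * ((-j) / (e g : ℤ)))
    rw [inv_inv] at h5
    rw [← zpow_natCast, ← zpow_mul, h5]
    have h6 : (e g : ℤ) * ((-j) / (e g : ℤ)) = -j - r := by
      have := Int.emod_add_mul_ediv (-j) (e g : ℤ)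
      rw [hr] at this
      linarith
    rw [h6, zpow_sub, zpow_neg, zpow_natCast]
    group
  rwa [h4] at h3

/-- The main cohomological vanishing result. -/
theorem allDer_cone (𝒱 : Vq N (OmI I G)) (hp : ∀ x : OmI I G, 𝒱.p x = (x.2 : G ⧸ N))
    (hfin : ∀ f ∈ 𝒱.V, ∀ i, {g : G | f (omk i g) ≠ 0}.Finite)
    (hNH : N ≤ H) (R : Set (G ⧸ N)) (hR : ∀ c ∈ R, pu H c = ((1 : G) : G ⧸ H))
    (hRN : ∀ n ∈ N, ∀ c ∈ R, n • c ∈ R)
    (hC : ∀ T : Finset G, ∃ y : G ⧸ N, ∀ g ∈ T, g⁻¹ • y ∉ R)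
    (hpow : ∀ u ∈ N, ∀ h ∈ H, ∃ e : ℕ, 0 < e ∧ (h⁻¹ * (u : G) * h) ^ e ∈ N) {S : Finset G}
    (hS : Subgroup.closure (S : Set G) = ⊤)
    {d : ℕ} {x : Fin d → N} (hx : Subgroup.closure (Set.range x) = ⊤)
    (hN : AllDer (G := N) (RR N)) (hNinf : Infinite N)
    (htf : ∀ (x : G) (k : ℤ), k ≠ 0 → x ^ k = 1 → x = 1)
    (hB : ∀ (E : Set (G ⧸ H)) (y : G), BY S H E y ⊓ N = ⊥ →
      (∃ T : Finset G, ∀ b ∈ BY S H E y, ∃ g ∈ T, g⁻¹ • ((y * b : G) : G ⧸ N) ∈ R) →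
      AllDer (G := G) (famF (BY S H E y)).sub) :
    AllDer (G := G) (𝒱.MQ (le_refl N) R) := by
  intro δ hδ
  obtain ⟨φ, c, hφ, hc, hm⟩ := exists_potq 𝒱 hp hfin (le_refl N) R hx hN hNinf δ hδ
  obtain ⟨u, hu1⟩ := exists_ne (1 : N)
  have hu1 : (u : G) ≠ 1 := fun h => hu1 (Subtype.ext h)
  choose T hT using small_coset 𝒱 hp hNH R hR hRN hu1 (hpow u u.2) htf δ φ c hφ hc
  -- finitely many cosets
  have hkey : ∃ E' : Set (G ⧸ H), E'.Finite ∧ ∀ y : G, (y : G ⧸ H) ∉ E' → ∀ i, φ i y = c i y := by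
    by_cases hfinH : Finite (G ⧸ H)
    · exact ⟨Set.univ, Set.finite_univ, fun y hy => absurd (Set.mem_univ _) hy⟩
    have hinf : Infinite (G ⧸ H) := not_finite_iff_infinite.1 hfinH
    let E : Set (G ⧸ H) := (⋃ s ∈ S, pu H '' (𝒱.p '' spq (δ s : FQ (OmI I G)))) ∪
      {((1 : G) : G ⧸ H)}
    have hfinE : ∀ f : 𝒱.MQ (le_refl N) R, (pu H '' (𝒱.p '' spq (f : FQ (OmI I G)))).Finite := by
      intro f
      obtain ⟨T, hT⟩ := f.2.2.2
      refine (T.finite_toSet.image fun g : G => (g : G ⧸ H)).subset ?_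
      rintro _ ⟨_, ⟨x, hx, rfl⟩, rfl⟩
      obtain ⟨g, hg, h⟩ := hT x hx
      refine ⟨g, hg, ?_⟩
      have h1 := hR _ h
      rw [puN, pu_smul hNH, inv_smul_eq_iff] at h1
      rw [h1]
      change (g : G ⧸ H) = ((g * 1 : G) : G ⧸ H)
      rw [mul_one]
    have hE : E.Finite := by
      refine Set.Finite.union ?_ (Set.finite_singleton _)
      exact Set.Finite.biUnion S.finite_toSet fun s _ => hfinE (δ s)
    have hEq : ∀ a b : G, EqG S H E a b → ∀ i, φ i a = φ i b := by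
      intro a b hab i
      induction hab with
      | rel a b h =>
        obtain ⟨s, hs, rfl, h1, h2⟩ := h
        have h3 := hφ s i (s * a)
        rw [inv_mul_cancel_left] at h3
        have h4 : (δ s : FQ (OmI I G)) (omk i (s * a)) = 0 := by
          by_contra hcon
          apply h2
          refine Or.inl (Set.mem_iUnion₂.2 ⟨s, hs, ⟨_, ⟨omk i (s * a), hcon, rfl⟩, ?_⟩⟩)
          rw [hp]
          exact pu_mk hNH _
        rw [h4] at h3
        linarith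
      | refl a => rfl
      | symm a b _ ih => exact ih.symm
      | trans a b c _ _ ih ih' => exact ih.trans ih'
    let E' : Set (G ⧸ H) := E ∪ {c | c ∉ E ∧ {c' | EqX S H E c' c}.Finite}
    have hE' : E'.Finite := hE.union (fin_comps hS hE hinf)
    refine ⟨E', hE', ?_⟩
    intro y hy i
    rw [Set.mem_union, not_or] at hy
    obtain ⟨hy1, hy2⟩ := hy
    by_contra hcon
    have hne : BY S H E y ⊓ N ≠ ⊥ := by
      intro hbot
      have hK : (BY S H E y).relIndex H = 0 := by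
        by_contra hcon
        have h1 : (BY S H E y).relIndex N ≠ 0 :=
          mt (Subgroup.relIndex_eq_zero_of_le_right hNH) hcon
        rw [← Subgroup.inf_relIndex_right, hbot, Subgroup.relIndex_bot_left] at h1
        exact h1 (Nat.card_eq_zero_of_infinite)
      refine hy2 ⟨hy1, comp_finite hS hE ⟨_, Or.inr rfl⟩ y hy1 (hB E y hbot ?_) hK⟩
      refine ⟨T (y : G ⧸ H), fun b hb => hT (y : G ⧸ H) i (y * b) (mk_mulK y hb.1) ?_⟩
      have h1 : φ i (y * b) = φ i y := hEq _ _ hb.2 i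
      have h2 : c i (y * b) = c i y := by
        obtain ⟨n, hn⟩ := ((hc i (y * b)).union (hc i y)).exists_notMem
        rw [Set.mem_union, not_or] at hn
        have h3 : φ i (y * b * n) = c i (y * b) := not_not.1 hn.1
        have h4 : φ i (y * n) = c i y := not_not.1 hn.2
        rw [← h3, ← h4]
        exact hEq _ _ (hb.2.mul_right (hNH n.2)) i
      rw [h1, h2]
      exact hcon
    obtain ⟨⟨b, hb⟩, hb1⟩ := (Subgroup.ne_bot_iff_exists_ne_one.1 hne)
    have hb1 : b ≠ 1 := fun h => hb1 (Subtype.ext h)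
    have hord : ∀ k : ℤ, k ≠ 0 → b ^ k ≠ 1 := fun k hk h1 => hb1 (htf b k hk h1)
    have hinj : Function.Injective fun k : ℤ => (⟨b, hb.2⟩ : N) ^ k := by
      intro k l hkl
      have h1 : b ^ k = b ^ l := congrArg Subtype.val hkl
      exact infinite_order hord 1 (by simpa using h1)
    obtain ⟨_, ⟨k, rfl⟩, hk⟩ := (Set.infinite_range_of_injective hinj).exists_notMem_finite (hc i y)
    have hk : φ i (y * (((⟨b, hb.2⟩ : N) ^ k : N) : G)) = c i y := not_not.1 hk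
    apply hcon
    rw [← hk]
    refine (hEq _ _ ?_ i).symm
    exact ((BY S H E y).zpow_mem hb.1 k).2
  obtain ⟨E', hE', hout⟩ := hkey
  let m : FQ (OmI I G) := fun x => φ x.1 x.2 - c x.1 x.2
  have hm' : ∀ (g : G) (x : OmI I G), m (g⁻¹ • x) - m x = (δ g : FQ (OmI I G)) x := by
    rintro g ⟨i, x⟩
    exact hm g i x
  let T' : Finset G := hE'.toFinset.biUnion T
  have hmT : ∀ x, m x ≠ 0 → ∃ g ∈ T', g⁻¹ • 𝒱.p x ∈ R := by
    rintro ⟨i, x⟩ hx
    have h1 : φ i x ≠ c i x := fun h => hx (sub_eq_zero.2 h)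
    have h2 : (x : G ⧸ H) ∈ E' := by
      by_contra hcon
      exact h1 (hout x hcon i)
    obtain ⟨g, hg, h3⟩ := hT (x : G ⧸ H) i x rfl h1
    refine ⟨g, Finset.mem_biUnion.2 ⟨_, hE'.mem_toFinset.2 h2, hg⟩, ?_⟩
    rw [hp]
    exact h3
  refine inner_of_potq 𝒱 (le_refl N) R δ m hm' {y | ∃ g ∈ T', g⁻¹ • y ∈ R} ?_ ?_ ?_ ?_
  · obtain ⟨y, hy⟩ := hC T'
    refine ⟨y, ?_⟩
    rintro ⟨g, hg, h⟩
    exact hy g hg h
  · intro x hx
    by_contra hcon
    exact hx (hmT x hcon)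
  · intro z
    refine (Set.finite_singleton z).subset ?_
    rintro y ⟨-, hz⟩
    rw [puN] at hz
    exact hz
  · refine ⟨T', fun x hx => ?_⟩
    rw [puN]
    exact hmT x hx

end

end Pool.Agent.J4H59.PI
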