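import Pool.Agent.J4H59.PI.Coh
import Mathlib.GroupTheory.SpecificGroups.Cyclic

/-!
# The cone generated by an element of the commensurator
-/

set_option autoImplicit false
set_option linter.unusedSectionVars false

open scoped Classical

namespace Pool.Agent.J4H59.PI

open Pool.Agent.Helper386.PD3 Pool.Agent.J4H59.PD Pool.Agent.J4H59.PE Pool.Agent.J4H59.PF

noncomputable section

variable {G : Type} [Group G] {N H : Subgroup G}

/-- the cells in `H` over `z` -/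
def Lv (N : Subgroup G) (τ : H →* Multiplicative ℤ) (z : ℤ) : Set (G ⧸ N) :=
  {c | ∃ h : H, ((h : G) : G ⧸ N) = c ∧ τ h = Multiplicative.ofAdd z}

variable {τ : H →* Multiplicative ℤ}

theorem Lv_rel (hNH : N ≤ H) (hτ : ∀ n : H, (n : G) ∈ N → τ n = 1) {z z' : ℤ} {g : G} {c : G ⧸ N}
    (hc : c ∈ Lv N τ z) (hc' : g • c ∈ Lv N τ z') :
    ∃ g' : H, (g' : G) = g ∧ τ g' = Multiplicative.ofAdd (z' - z) := by
  obtain ⟨h, rfl, hz⟩ := hc
  obtain ⟨h', hh, hz'⟩ := hc'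
  have hh : ((h' : G) : G ⧸ N) = ((g * (h : G) : G) : G ⧸ N) := hh
  rw [QuotientGroup.eq] at hh
  -- `n = h'⁻¹ g h`
  let n : H := ⟨(h' : G)⁻¹ * (g * (h : G)), hNH hh⟩
  refine ⟨h' * n * h⁻¹, ?_, ?_⟩
  · change (h' : G) * ((h' : G)⁻¹ * (g * (h : G))) * (h : G)⁻¹ = g
    group
  · rw [map_mul, map_mul, map_inv, hτ n hh, hz, hz', mul_one, ← ofAdd_neg, ← ofAdd_add]
    rfl

theorem Lv_unique (hNH : N ≤ H) (hτ : ∀ n : H, (n : G) ∈ N → τ n = 1) {z z' : ℤ} {c : G ⧸ N}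
    (hc : c ∈ Lv N τ z) (hc' : c ∈ Lv N τ z') : z = z' := by
  obtain ⟨g', h1, h2⟩ := Lv_rel hNH hτ (g := 1) hc (by rwa [one_smul])
  have h3 : g' = 1 := Subtype.ext h1
  rw [h3, map_one] at h2
  have h4 : (0 : ℤ) = z' - z := Multiplicative.ofAdd.injective h2
  omega

theorem Lv_smul {z : ℤ} {c : G ⧸ N} (hc : c ∈ Lv N τ z) (g : H) {e : ℤ}
    (hg : τ g = Multiplicative.ofAdd e) : (g : G) • c ∈ Lv N τ (e + z) := by
  obtain ⟨h, rfl, hz⟩ := hc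
  refine ⟨g * h, rfl, ?_⟩
  rw [map_mul, hg, hz, ofAdd_add]

theorem Lv_pu (hNH : N ≤ H) {z : ℤ} {c : G ⧸ N} (hc : c ∈ Lv N τ z) :
    pu H c = ((1 : G) : G ⧸ H) := by
  obtain ⟨h, rfl, -⟩ := hc
  rw [pu_mk hNH, eq_comm, QuotientGroup.eq, inv_one, one_mul]
  exact h.2

/-- the levels -/
def lvl (N : Subgroup G) (t : G) : ℕ → Set (G ⧸ N)
  | 0 => {((1 : G) : G ⧸ N)}
  | k + 1 => {c | ∃ n ∈ N, ∃ c' ∈ lvl N t k, c = n • t • c'}

theorem lvl_Lv (hNH : N ≤ H) (hτ : ∀ n : H, (n : G) ∈ N → τ n = 1) (t : H) {e : ℤ}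
    (ht : τ t = Multiplicative.ofAdd e) (k : ℕ) : lvl N (t : G) k ⊆ Lv N τ (k * e) := by
  induction k with
  | zero =>
    rintro c rfl
    refine ⟨1, rfl, ?_⟩
    rw [map_one, Nat.cast_zero, zero_mul]
    rfl
  | succ k ih =>
    rintro _ ⟨n, hn, c', hc', rfl⟩
    have h1 := Lv_smul (Lv_smul (ih hc') t ht) (⟨n, hNH hn⟩ : H) (e := 0) (hτ _ hn)
    have h2 : ((0 : ℤ) + (e + k * e)) = ((k + 1 : ℕ) : ℤ) * e := by
      push_cast
      ring
    rw [h2] at h1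
    exact h1

/-- orbits of cells in the commensurator are finite -/
theorem orb_fin {h : G} (hh : (As N h⁻¹).index ≠ 0) :
    {c : G ⧸ N | ∃ n ∈ N, c = n • (h : G ⧸ N)}.Finite := by
  have hfi : (As N h⁻¹).FiniteIndex := ⟨hh⟩
  have hF : Finite (N ⧸ As N h⁻¹) := inferInstance
  refine (Set.finite_range fun q : N ⧸ As N h⁻¹ =>
    (((Quotient.out q : N) : G) • (h : G ⧸ N) : G ⧸ N)).subset ?_
  rintro _ ⟨n, hn, rfl⟩
  refine ⟨QuotientGroup.mk (⟨n, hn⟩ : N), ?_⟩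
  have h1 : (QuotientGroup.mk (Quotient.out (QuotientGroup.mk (⟨n, hn⟩ : N) : N ⧸ As N h⁻¹) : N) :
      N ⧸ As N h⁻¹) = QuotientGroup.mk (⟨n, hn⟩ : N) := Quotient.out_eq' _
  rw [QuotientGroup.eq] at h1
  have h2 : h⁻¹ * ((((Quotient.out (QuotientGroup.mk (⟨n, hn⟩ : N) : N ⧸ As N h⁻¹) : N)⁻¹ *
    (⟨n, hn⟩ : N) : N)) : G) * h⁻¹⁻¹ ∈ N := h1
  change (((((Quotient.out (QuotientGroup.mk (⟨n, hn⟩ : N) : N ⧸ As N h⁻¹) : N) : G)) * h : G) :
    G ⧸ N) = ((n * h : G) : G ⧸ N)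
  rw [QuotientGroup.eq]
  rw [inv_inv, Subgroup.coe_mul, Subgroup.coe_inv] at h2
  have h3 : (((((Quotient.out (QuotientGroup.mk (⟨n, hn⟩ : N) : N ⧸ As N h⁻¹) : N) : G)) * h))⁻¹ *
      (n * h) = h⁻¹ * ((((Quotient.out (QuotientGroup.mk (⟨n, hn⟩ : N) : N ⧸ As N h⁻¹) : N) : G))⁻¹ *
        n) * h := by group
  rw [h3]
  exact h2

theorem lvl_fin (hNH : N ≤ H) (hcm : ∀ h ∈ H, (As N h).index ≠ 0)
    (hτ : ∀ n : H, (n : G) ∈ N → τ n = 1) (t : H) (k : ℕ) : (lvl N (t : G) k).Finite := by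
  induction k with
  | zero => exact Set.finite_singleton _
  | succ k ih =>
    have h1 : ∀ c' ∈ lvl N (t : G) k, {c : G ⧸ N | ∃ n ∈ N, c = n • (t : G) • c'}.Finite := by
      intro c' hc'
      obtain ⟨h, rfl, -⟩ := lvl_Lv hNH hτ t (e := (τ t).toAdd) rfl k hc'
      exact orb_fin (h := (t : G) * h) (hcm _ (H.inv_mem (t * h).2))
    refine (ih.biUnion h1).subset ?_
    rintro c ⟨n, hn, c', hc', rfl⟩
    exact Set.mem_iUnion₂.2 ⟨c', hc', n, hn, rfl⟩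

/-- the cone generated by an element -/
def mkCone (hNH : N ≤ H) (hτ : ∀ n : H, (n : G) ∈ N → τ n = 1) (t : H) (ht : τ t ≠ 1) :
    Cone N where
  t := t
  L := lvl N (t : G)
  hN := by
    intro k n hn c hc
    cases k with
    | zero =>
      have hc : c = ((1 : G) : G ⧸ N) := hc
      subst hc
      change ((n * 1 : G) : G ⧸ N) = ((1 : G) : G ⧸ N)
      rw [mul_one, eq_comm, QuotientGroup.eq, inv_one, one_mul]
      exact hn
    | succ k =>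
      obtain ⟨n', hn', c', hc', rfl⟩ := hc
      exact ⟨n * n', N.mul_mem hn hn', c', hc', (mul_smul _ _ _).symm⟩
  ht := by
    intro k c hc
    exact ⟨1, N.one_mem, c, hc, (one_smul _ _).symm⟩
  hd := by
    intro k l c hk hl
    have h1 := Lv_unique hNH hτ (lvl_Lv hNH hτ t (e := (τ t).toAdd) rfl k hk)
      (lvl_Lv hNH hτ t (e := (τ t).toAdd) rfl l hl)
    have h2 : (τ t).toAdd ≠ 0 := fun h => ht (Multiplicative.toAdd.injective h)
    have h3 := mul_right_cancel₀ h2 h1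
    exact_mod_cast h3

/-- all cells of the cone over a given value are in finitely many levels -/
theorem cone_fin (hNH : N ≤ H) (hcm : ∀ h ∈ H, (As N h).index ≠ 0)
    (hτ : ∀ n : H, (n : G) ∈ N → τ n = 1) (t : H) (ht : τ t ≠ 1) (z : ℤ) :
    ((mkCone hNH hτ t ht).R ∩ Lv N τ z).Finite := by
  refine ((Finset.range (z.natAbs + 1)).finite_toSet.biUnion fun k _ =>
    lvl_fin hNH hcm hτ t k).subset ?_
  rintro c ⟨⟨k, hk⟩, hz⟩
  refine Set.mem_iUnion₂.2 ⟨k, ?_, hk⟩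
  have h1 := Lv_unique hNH hτ (lvl_Lv hNH hτ t (e := (τ t).toAdd) rfl k hk) hz
  have h2 : (τ t).toAdd ≠ 0 := fun h => ht (Multiplicative.toAdd.injective h)
  rw [Finset.coe_range, Set.mem_Iio, ← h1, Int.natAbs_mul, Int.natAbs_natCast]
  have h3 : 1 ≤ (τ t).toAdd.natAbs := Int.natAbs_pos.2 h2
  have h4 : k * 1 ≤ k * (τ t).toAdd.natAbs := Nat.mul_le_mul_left k h3
  omega

theorem cone_Lv (hNH : N ≤ H) (hτ : ∀ n : H, (n : G) ∈ N → τ n = 1) (t : H) (ht : τ t ≠ 1)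
    {c : G ⧸ N} (hc : c ∈ (mkCone hNH hτ t ht).R) : ∃ z, c ∈ Lv N τ z := by
  obtain ⟨k, hk⟩ := hc
  exact ⟨_, lvl_Lv hNH hτ t (e := (τ t).toAdd) rfl k hk⟩

/-- translates of opposite cones meet in finitely many cells -/
theorem cone_opp (hNH : N ≤ H) (hcm : ∀ h ∈ H, (As N h).index ≠ 0)
    (hτ : ∀ n : H, (n : G) ∈ N → τ n = 1) (t : H) (ht : τ t ≠ 1) (ht' : τ t⁻¹ ≠ 1) (g : G) :
    {c | c ∈ (mkCone hNH hτ t ht).R ∧ g • c ∈ (mkCone hNH hτ t⁻¹ ht').R}.Finite := by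
  by_cases hg : g ∈ H
  · refine ((Finset.range ((τ ⟨g, hg⟩).toAdd.natAbs + 1)).finite_toSet.biUnion fun k _ =>
      lvl_fin hNH hcm hτ t k).subset ?_
    rintro c ⟨⟨k, hk⟩, ⟨l, hl⟩⟩
    refine Set.mem_iUnion₂.2 ⟨k, ?_, hk⟩
    obtain ⟨g', hg', h1⟩ := Lv_rel hNH hτ (lvl_Lv hNH hτ t (e := (τ t).toAdd) rfl k hk)
      (lvl_Lv hNH hτ t⁻¹ (e := (τ t⁻¹).toAdd) rfl l hl)
    have h2 : g' = ⟨g, hg⟩ := Subtype.ext hg'
    rw [h2] at h1
    have h3 : (τ t).toAdd ≠ 0 := fun h => ht (Multiplicative.toAdd.injective h)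
    have h4 : (τ t⁻¹).toAdd = -(τ t).toAdd := by
      rw [map_inv]
      rfl
    rw [h4] at h1
    rw [Finset.coe_range, Set.mem_Iio, h1]
    have h5 : (Multiplicative.ofAdd ((l : ℤ) * -(τ t).toAdd - k * (τ t).toAdd)).toAdd =
        -(((k + l : ℕ) : ℤ) * (τ t).toAdd) := by
      rw [toAdd_ofAdd]
      push_cast
      ring
    rw [h5, Int.natAbs_neg, Int.natAbs_mul, Int.natAbs_natCast]
    have h6 : 1 ≤ (τ t).toAdd.natAbs := Int.natAbs_pos.2 h3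
    have h7 : (k + l) * 1 ≤ (k + l) * (τ t).toAdd.natAbs := Nat.mul_le_mul_left _ h6
    omega
  · convert Set.finite_empty
    ext c
    rw [Set.mem_ofPred_eq, Set.mem_empty_iff_false, iff_false]
    rintro ⟨⟨k, hk⟩, ⟨l, hl⟩⟩
    obtain ⟨g', hg', -⟩ := Lv_rel hNH hτ (lvl_Lv hNH hτ t (e := (τ t).toAdd) rfl k hk)
      (lvl_Lv hNH hτ t⁻¹ (e := (τ t⁻¹).toAdd) rfl l hl)
    rw [← hg'] at hg
    exact hg g'.2

/-- subgroups on which `τ` is injective are cyclic -/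
theorem cyc_of_inj {B : Subgroup G} (hBH : B ≤ H) (hB : ∀ b : H, (b : G) ∈ B → τ b = 1 → b = 1) :
    ∃ z : G, B = Subgroup.zpowers z := by
  let f : B →* Multiplicative ℤ := τ.comp (Subgroup.inclusion hBH)
  have hf : Function.Injective f := by
    rw [injective_iff_map_eq_one]
    intro b hb
    have h1 := hB (Subgroup.inclusion hBH b) b.2 hb
    exact Subtype.ext (congrArg (fun x : H => (x : G)) h1)
  have hc : IsCyclic B := by
    have e : B ≃* f.range := MonoidHom.ofInjective hf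
    exact e.isCyclic.2 inferInstance
  obtain ⟨z, hz⟩ := hc.exists_generator
  refine ⟨z, le_antisymm ?_ ?_⟩
  · intro b hb
    obtain ⟨k, hk⟩ := hz ⟨b, hb⟩
    have hk : z ^ k = ⟨b, hb⟩ := hk
    refine ⟨k, ?_⟩
    have h1 := congrArg (fun x : B => (x : G)) hk
    exact h1
  · rw [Subgroup.zpowers_le]
    exact z.2

end

end Pool.Agent.J4H59.PI
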