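import Pool.Agent.J4H59.PI.RayS

/-!
# Infinite quotients of subgroups of the commensurator
-/

set_option autoImplicit false
set_option linter.unusedSectionVars false

open scoped Classical

namespace Pool.Agent.J4H59.PI

open Pool.Agent.Helper386.PD3 Pool.Agent.J4H59.PD Pool.Agent.J4H59.PE Pool.Agent.J4H59.PF
open Pool.Agent.Helper158

noncomputable section

variable {G : Type} [Group G] {N K H : Subgroup G}

/-- Powers of elements commensurate into `N`. -/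
theorem pow_of_as {h : G} (hh : (As N h⁻¹).index ≠ 0) {u : G} (hu : u ∈ N) :
    ∃ e : ℕ, 0 < e ∧ (h⁻¹ * u * h) ^ e ∈ N := by
  obtain ⟨e, he, -, he'⟩ := Subgroup.exists_pow_mem_of_index_ne_zero hh (⟨u, hu⟩ : N)
  refine ⟨e, he, ?_⟩
  have h1 : h⁻¹ * (((⟨u, hu⟩ : N) ^ e : N) : G) * h⁻¹⁻¹ ∈ N := he'
  have h2 : (h⁻¹ * u * h) ^ e = h⁻¹ * (((⟨u, hu⟩ : N) ^ e : N) : G) * h⁻¹⁻¹ := by
    have h3 := conj_pow (a := h⁻¹) (b := u) (i := e)
    rw [inv_inv] at h3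
    rw [h3, inv_inv]
    rfl
  rw [h2]
  exact h1

/-- The main argument. -/
theorem core_line {n : ℕ} {w : G →* ℤˣ} {e0 e1 e2 e3 d0 d1 d2 : MR G n}
    (h : Full w e0 e1 e2 e3 d0 d1 d2) (hfgG : Group.FG G)
    (htf : ∀ (x : G) (k : ℤ), k ≠ 0 → x ^ k = 1 → x = 1)
    (hfg : N.FG) (hNinf : Infinite N) (hN : AllDer (G := N) (RR N))
    (hNK : N ≤ K) (hKH : K ≤ H) (hcm : ∀ h ∈ H, (As N h).index ≠ 0)
    (v : Ln K) (hv0 : v.h 0 = 1) (hvH : ∀ k, v.h k ∈ H)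
    (hB : ∀ (S : Finset G) (E : Set (G ⧸ H)) (y : G),
        BY S H E y ⊓ K = ⊥ → AllDer (G := G) (famF (BY S H E y)).sub) :
    (H.index ≠ 0 ∧ N.relIndex K ≠ 0) ∧ ∃ T : Finset G, ∀ y ∈ H, ∃ g ∈ T, ∃ k : ℤ,
      g⁻¹ • (y : G ⧸ K) = (v.h k : G ⧸ K) := by
  obtain ⟨d, x, hcl⟩ := exists_gens hfg
  have hxG : Subgroup.closure (Set.range fun i => (x i : G)) = N := by
    have h1 : (Set.range fun i => (x i : G)) = N.subtype '' (Set.range x) := by
      rw [← Set.range_comp]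
      rfl
    rw [h1, ← MonoidHom.map_closure, hcl, ← MonoidHom.range_eq_map, Subgroup.range_subtype]
  obtain ⟨S, hS⟩ := Group.fg_def.1 hfgG
  have hNH : N ≤ H := hNK.trans hKH
  have hp0 : v.pos.h 0 = 1 := by
    change v.h ((0 : ℕ) : ℤ) = 1
    rw [Nat.cast_zero, hv0]
  have hm0 : v.neg.h 0 = 1 := by
    change v.h (-((0 : ℕ) : ℤ)) = 1
    rw [Nat.cast_zero, neg_zero, hv0]
  have hpH : ∀ k, v.pos.h k ∈ H := fun k => hvH _
  have hmH : ∀ k, v.neg.h k ∈ H := fun k => hvH _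
  let 𝒱 := VVq x w
  let rp' := rayCone hNK v.pos hp0 hpH
  let rm := rayCone hNK v.neg hm0 hmH
  have hp0' : ((1 : G) : G ⧸ N) ∈ rp'.L 0 := rfl
  have hm0' : ((1 : G) : G ⧸ N) ∈ rm.L 0 := rfl
  have hposne : rp'.R.Nonempty := ⟨_, 0, hp0'⟩
  have hnegne : rm.R.Nonempty := ⟨_, 0, hm0'⟩
  have hSas : ∀ (r : Ray K) (s : G), s ∈ r.S.filter (· ∈ H) → (As N s).index ≠ 0 :=
    fun r s hs => hcm s (Finset.mem_filter.1 hs).2
  by_cases hC : ∀ T : Finset G, ∃ y : G ⧸ N, ∀ g ∈ T, g⁻¹ • y ∉ rp'.R ∪ rm.R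
  · exfalso
    have hP : ResInner w (𝒱.V_le_MQ (le_refl N) hposne) :=
      resInner_cos 𝒱 rp' _ hxG (hSas v.pos) hp0' hposne
    have hQ : ResInner w (𝒱.V_le_MQ (le_refl N) hnegne) :=
      resInner_cos 𝒱 rm _ hxG (hSas v.neg) hm0' hnegne
    have hM : AllDer (G := G) (𝒱.MQ (le_refl N) (rp'.R ∪ rm.R)) := by
      refine allDer_cone 𝒱 (fun _ => rfl) (VVq_fin x w) hNH _ ?_ ?_ hC ?_ hS hcl hN hNinf htf ?_
      · intro c hc
        have h1 : ∃ h ∈ H, c = ((h : G) : G ⧸ N) := by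
          rcases hc with ⟨k, hk⟩ | ⟨k, hk⟩
          · exact lvS_H hNH v.pos hpH k hk
          · exact lvS_H hNH v.neg hmH k hk
        obtain ⟨h, hh, rfl⟩ := h1
        rw [pu_mk hNH, eq_comm, QuotientGroup.eq, inv_one, one_mul]
        exact hh
      · rintro n hn c (⟨k, hk⟩ | ⟨k, hk⟩)
        · exact Or.inl ⟨k, rp'.hN k n hn c hk⟩
        · exact Or.inr ⟨k, rm.hN k n hn c hk⟩
      · intro u hu h hh
        exact pow_of_as (hcm _ (H.inv_mem hh)) hu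
      · intro E y hbot hsm
        exact hB S E y (small_line htf hNK hNH hcm v hp0 hpH hm0 hmH hbot y hsm)
    rw [← 𝒱.MQ_sup (le_refl N)] at hM
    have hI : AllDer (G := G) (Du w 𝒱.V) := glueR h (𝒱.MQ (le_refl N) rp'.R)
      (𝒱.MQ (le_refl N) rm.R) 𝒱.V (𝒱.MQ_inf (le_refl N) hposne hnegne
      (line_opp hNK hNH hcm v hp0 hpH hm0 hmH)) (𝒱.V_le_MQ (le_refl N) hposne)
      (𝒱.V_le_MQ (le_refl N) hnegne) hP hQ hM
    refine contraQ x w hcl hI hN ?_ ?_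
    · intro z k hk hz
      apply Subtype.ext
      exact htf z k hk (congrArg Subtype.val hz)
    · obtain ⟨z, hz⟩ := exists_ne (1 : N)
      exact ⟨z, hz⟩
  · push Not at hC
    obtain ⟨T, hT⟩ := hC
    refine ⟨cov_line hNK hKH hcm v hp0 hpH hm0 hmH hT, T, fun y _ => ?_⟩
    obtain ⟨g, hg, h1⟩ := hT (y : G ⧸ N)
    rcases h1 with ⟨k, hk⟩ | ⟨k, hk⟩
    · have h2 := lvS_pu hNK v.pos hp0 k hk
      rw [pu_smul hNK, pu_mk hNK] at h2
      exact ⟨g, hg, k, h2⟩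
    · have h2 := lvS_pu hNK v.neg hm0 k hk
      rw [pu_smul hNK, pu_mk hNK] at h2
      exact ⟨g, hg, -(k : ℤ), h2⟩

/-- The case of an element of infinite order. -/
theorem t_line {n : ℕ} {w : G →* ℤˣ} {e0 e1 e2 e3 d0 d1 d2 : MR G n}
    (h : Full w e0 e1 e2 e3 d0 d1 d2) (hfgG : Group.FG G) (hG : AllDer (G := G) (RR G))
    (htf : ∀ (x : G) (k : ℤ), k ≠ 0 → x ^ k = 1 → x = 1)
    (hfg : N.FG) (hNinf : Infinite N) (hN : AllDer (G := N) (RR N))
    (hNK : N ≤ K) {t : G} (hn : t ∈ Subgroup.normalizer (K : Set G))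
    (ht : ∀ k : ℤ, k ≠ 0 → t ^ k ∉ K)
    (hcm : ∀ h ∈ K ⊔ Subgroup.zpowers t, (As N h).index ≠ 0) :
    (K ⊔ Subgroup.zpowers t).index ≠ 0 ∧ N.relIndex K ≠ 0 := by
  obtain ⟨v, hv0, hvt⟩ := exists_Lnt hn ht
  have hvH : ∀ k, v.h k ∈ K ⊔ Subgroup.zpowers t := fun k => by
    rw [hvt]
    exact Subgroup.zpow_mem _ (Subgroup.mem_sup_right (Subgroup.mem_zpowers t)) k
  refine (core_line h hfgG htf hfg hNinf hN hNK le_sup_left hcm v hv0 hvH ?_).1
  intro S E y hbot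
  obtain ⟨z, hz⟩ := cyc_of_inf hn ht (BY_le y) hbot
  rw [hz]
  exact allDer_cyc h hG htf z

/-- The case of a torsion quotient. -/
theorem tor_line {n : ℕ} {w : G →* ℤˣ} {e0 e1 e2 e3 d0 d1 d2 : MR G n}
    (h : Full w e0 e1 e2 e3 d0 d1 d2) (hfgG : Group.FG G) (hG : AllDer (G := G) (RR G))
    (htf : ∀ (x : G) (k : ℤ), k ≠ 0 → x ^ k = 1 → x = 1)
    (hfg : N.FG) (hNinf : Infinite N) (hN : AllDer (G := N) (RR N))
    (hNK : N ≤ K) (hKH : K ≤ H) (hcm : ∀ h ∈ H, (As N h).index ≠ 0)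
    (hHK : H ≤ Subgroup.normalizer (K : Set G)) {F : Finset G}
    (hF : H = K ⊔ Subgroup.closure (F : Set G)) (hinf : K.relIndex H = 0)
    (htor : ∀ h ∈ H, ∃ n : ℕ, 0 < n ∧ h ^ n ∈ K) : False := by
  obtain ⟨v, hv0, hvH, hv⟩ := exists_LnF hKH hHK hF hinf htor
  obtain ⟨-, T, hT⟩ := core_line h hfgG htf hfg hNinf hN hNK hKH hcm v hv0 hvH (by
    intro S E y hbot
    have hz : BY S H E y = Subgroup.zpowers 1 := by
      rw [Subgroup.zpowers_one_eq_bot, eq_bot_iff]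
      intro b hb
      obtain ⟨k, hk, hkK⟩ := htor b (BY_le y hb)
      have h1 : b ^ k ∈ BY S H E y ⊓ K := ⟨Subgroup.pow_mem _ hb k, hkK⟩
      rw [hbot, Subgroup.mem_bot] at h1
      rw [Subgroup.mem_bot]
      refine htf b k (by exact_mod_cast hk.ne') ?_
      rw [zpow_natCast]
      exact h1
    rw [hz]
    exact allDer_cyc h hG htf 1)
  obtain ⟨z, hz, hz'⟩ := hv T
  obtain ⟨g, hg, k, hk⟩ := hT z hz
  exact hz' g hg k hk

/-- Infinite finitely generated quotients of subgroups of the commensurator. -/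
theorem main_line {n : ℕ} {w : G →* ℤˣ} {e0 e1 e2 e3 d0 d1 d2 : MR G n}
    (h : Full w e0 e1 e2 e3 d0 d1 d2) (hfgG : Group.FG G) (hG : AllDer (G := G) (RR G))
    (htf : ∀ (x : G) (k : ℤ), k ≠ 0 → x ^ k = 1 → x = 1)
    (hfg : N.FG) (hNinf : Infinite N) (hN : AllDer (G := N) (RR N))
    (hNK : N ≤ K) (hKH : K ≤ H) (hcm : ∀ h ∈ H, (As N h).index ≠ 0)
    (hHK : H ≤ Subgroup.normalizer (K : Set G)) {F : Finset G}
    (hF : H = K ⊔ Subgroup.closure (F : Set G)) (hinf : K.relIndex H = 0) :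
    N.relIndex K ≠ 0 ∧ ∃ t ∈ H, t ∈ Subgroup.normalizer (N : Set G) ∧
      (∀ k : ℤ, k ≠ 0 → t ^ k ∉ K) ∧ (N ⊔ Subgroup.zpowers t).index ≠ 0 := by
  by_cases htor : ∀ h ∈ H, ∃ n : ℕ, 0 < n ∧ h ^ n ∈ K
  · exact (tor_line h hfgG hG htf hfg hNinf hN hNK hKH hcm hHK hF hinf htor).elim
  · push Not at htor
    obtain ⟨t, htH, ht⟩ := htor
    have ht' := pow_int ht
    -- the subgroup generated by `N` and `t`
    set M := N ⊔ Subgroup.zpowers t with hM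
    have htM : t ∈ M := Subgroup.mem_sup_right (Subgroup.mem_zpowers t)
    have hMH : M ≤ H := sup_le (hNK.trans hKH) ((Subgroup.zpowers_le).2 htH)
    set L := K ⊓ M with hL
    have hNL : N ≤ L := le_inf hNK le_sup_left
    have htL : t ∈ Subgroup.normalizer (L : Set G) := by
      rw [Subgroup.mem_normalizer_iff]
      intro x
      have h1 := Subgroup.mem_normalizer_iff.1 (hHK htH) x
      constructor
      · intro hx
        exact ⟨h1.1 hx.1, M.mul_mem (M.mul_mem htM hx.2) (M.inv_mem htM)⟩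
      · intro hx
        refine ⟨h1.2 hx.1, ?_⟩
        have h2 : x = t⁻¹ * (t * x * t⁻¹) * t := by group
        rw [h2]
        exact M.mul_mem (M.mul_mem (M.inv_mem htM) hx.2) htM
    have hLt : ∀ k : ℤ, k ≠ 0 → t ^ k ∉ L := fun k hk hkL => ht' k hk hkL.1
    have hLM : L ⊔ Subgroup.zpowers t = M := by
      apply le_antisymm
      · exact sup_le inf_le_right le_sup_right
      · exact sup_le (hNL.trans le_sup_left) le_sup_right
    obtain ⟨h1, h2⟩ := t_line h hfgG hG htf hfg hNinf hN hNL htL hLt (by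
      rw [hLM]
      exact fun h hh => hcm h (hMH hh))
    rw [hLM] at h1
    have h3 : L.relIndex K ≠ 0 := by
      rw [hL, Subgroup.inf_relIndex_left]
      rw [← Subgroup.relIndex_top_right] at h1
      exact mt (Subgroup.relIndex_eq_zero_of_le_right le_top) h1
    have h4 : N.relIndex K ≠ 0 := by
      rw [← Subgroup.relIndex_mul_relIndex N L K hNL inf_le_left]
      exact mul_ne_zero h2 h3
    obtain ⟨m, hm, hm'⟩ := exists_pow_norm hfg hNK h4 (hHK htH)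
    have hs : ∀ k : ℤ, k ≠ 0 → (t ^ m) ^ k ∉ K := by
      intro k hk hkK
      refine ht' (m * k) (mul_ne_zero (by exact_mod_cast hm.ne') hk) ?_
      rw [zpow_mul, zpow_natCast]
      exact hkK
    exact ⟨h4, t ^ m, H.pow_mem htH m, hm', hs,
      index_ne_zero_t h hfgG hG htf hfg hNinf hN hm' fun k hk hkA => hs k hk (hNK hkA)⟩

end

end Pool.Agent.J4H59.PI
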