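import Pool.Agent.J4H59.PF.Res

/-!
# Pushing cycles along a cone of cells

A cone consists of disjoint `N`-invariant sets of cells, the levels, and of an element `t` of `G` which
maps every level to the next one.
-/

set_option autoImplicit false
set_option linter.unusedSectionVars false

open scoped Classical

namespace Pool.Agent.J4H59.PI

open Pool.Agent.Helper386.PD3 Pool.Agent.J4H59.PD Pool.Agent.J4H59.PF

noncomputable section

variable {G : Type} [Group G]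

/-- levels which are invariant under `N` and which are mapped by `t` to the next level -/
structure Cone (N : Subgroup G) where
  /-- the element -/
  t : G
  /-- the levels -/
  L : ℕ → Set (G ⧸ N)
  hN : ∀ k, ∀ n ∈ N, ∀ c ∈ L k, n • c ∈ L k
  ht : ∀ k, ∀ c ∈ L k, t • c ∈ L (k + 1)
  hd : ∀ k l c, c ∈ L k → c ∈ L l → k = l

variable {N : Subgroup G} {Ω : Type} [MulAction G Ω]

/-- the union of the levels -/
def Cone.R (r : Cone N) : Set (G ⧸ N) := {c | ∃ k, c ∈ r.L k}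

/-- the level of a cell -/
def Cone.lev (r : Cone N) (c : G ⧸ N) : ℕ := if h : ∃ k, c ∈ r.L k then h.choose else 0

theorem Cone.lev_L (r : Cone N) {k : ℕ} {c : G ⧸ N} (hc : c ∈ r.L k) : r.lev c = k := by
  have h1 : ∃ k, c ∈ r.L k := ⟨k, hc⟩
  have h2 : r.lev c = h1.choose := dif_pos h1
  rw [h2]
  exact r.hd _ _ c h1.choose_spec hc

theorem puN (y : G ⧸ N) : pu N y = y := mk_rp y

variable (𝒱 : Vq N Ω) (r : Cone N)

/-- the functions with support over finitely many translates of the cone -/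
abbrev MC : Submodule (RR G) (FQ Ω) := 𝒱.MQ (le_refl N) r.R

/-- functions supported over the levels with index at least `k` -/
def Fc (k : ℕ) : AddSubgroup (MC 𝒱 r) where
  carrier := {f | ∀ y, (f : FQ Ω) y ≠ 0 → ∃ l, k ≤ l ∧ 𝒱.p y ∈ r.L l}
  zero_mem' := fun y hy => absurd rfl hy
  add_mem' {f f'} hf hf' y hy := by
    by_cases h : (f : FQ Ω) y = 0
    · exact hf' y (fun h' => hy (by rw [Submodule.coe_add, fqadd_apply, h, h', add_zero]))
    · exact hf y h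
  neg_mem' {f} hf y hy := hf y (fun h => hy (by
    rw [Submodule.coe_neg, fqneg_apply, h, neg_zero]))

theorem Fc_mono (k : ℕ) : Fc 𝒱 r (k + 1) ≤ Fc 𝒱 r k := by
  intro f hf y hy
  obtain ⟨l, hl, h⟩ := hf y hy
  exact ⟨l, by omega, h⟩

theorem Fc_sep (f : MC 𝒱 r) (h : ∀ l : ℕ, f ∈ Fc 𝒱 r l) : f = 0 := by
  apply Subtype.ext
  refine fq_ext fun y => ?_
  by_contra hcon
  obtain ⟨k, -, hk⟩ := h 0 y hcon
  obtain ⟨l, hl, hl'⟩ := h (k + 1) y hcon
  have := r.hd _ _ _ hk hl'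
  omega

theorem Fc_comp (u : ℕ → MC 𝒱 r) (hu : ∀ k : ℕ, u k ∈ Fc 𝒱 r k) :
    ∃ s, ∀ l : ℕ, s - ∑ k ∈ Finset.range l, u k ∈ Fc 𝒱 r l := by
  let s : FQ Ω := fun y => ∑ k ∈ Finset.range (r.lev (𝒱.p y) + 1), (u k : FQ Ω) y
  have hs : s ∈ MC 𝒱 r := by
    refine ⟨fun c => ?_, fun z => ?_, {1}, fun y hy => ?_⟩
    · have h1 : cutq {x | 𝒱.p x = c} s =
          ∑ k ∈ Finset.range (r.lev c + 1), cutq {x | 𝒱.p x = c} (u k : FQ Ω) := by
        refine fq_ext fun y => ?_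
        rw [fqsum_apply]
        by_cases hy : 𝒱.p y = c
        · rw [cutq_of_mem (s := {x | 𝒱.p x = c}) s hy]
          change ∑ k ∈ Finset.range (r.lev (𝒱.p y) + 1), (u k : FQ Ω) y = _
          rw [hy]
          exact Finset.sum_congr rfl fun k _ =>
            (cutq_of_mem (s := {x | 𝒱.p x = c}) (u k : FQ Ω) hy).symm
        · rw [cutq_of_notMem (s := {x | 𝒱.p x = c}) s hy, Finset.sum_eq_zero]
          exact fun k _ => cutq_of_notMem (s := {x | 𝒱.p x = c}) (u k : FQ Ω) hy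
      rw [h1]
      exact Submodule.sum_mem _ fun k _ => (u k).2.1 c
    · refine (Set.finite_singleton z).subset ?_
      rintro y ⟨-, hz⟩
      rw [puN] at hz
      exact hz
    · have hy : s y ≠ 0 := hy
      obtain ⟨i, hi, hi'⟩ := Finset.exists_ne_zero_of_sum_ne_zero hy
      obtain ⟨l, -, hl⟩ := hu i y hi'
      refine ⟨1, Finset.mem_singleton_self 1, ?_⟩
      rw [inv_one, one_smul, puN]
      exact ⟨l, hl⟩
  refine ⟨⟨s, hs⟩, fun l y hy => ?_⟩
  have hy1 : s y - ∑ k ∈ Finset.range l, (u k : FQ Ω) y ≠ 0 := by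
    rw [← Vq.coe_sumq]
    exact hy
  have h2 : ∃ j, 𝒱.p y ∈ r.L j := by
    by_contra hcon
    apply hy1
    have h3 : ∀ k, (u k : FQ Ω) y = 0 := by
      intro k
      by_contra h4
      obtain ⟨j, -, hj⟩ := hu k y h4
      exact hcon ⟨j, hj⟩
    change ∑ k ∈ Finset.range (r.lev (𝒱.p y) + 1), (u k : FQ Ω) y - _ = 0
    rw [Finset.sum_eq_zero fun k _ => h3 k, Finset.sum_eq_zero fun k _ => h3 k, sub_zero]
  obtain ⟨j, hj⟩ := h2
  refine ⟨j, ?_, hj⟩
  by_contra hcon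
  apply hy1
  change ∑ k ∈ Finset.range (r.lev (𝒱.p y) + 1), (u k : FQ Ω) y - _ = 0
  rw [r.lev_L hj, sub_eq_zero]
  apply Finset.sum_subset
  · intro k hk
    rw [Finset.mem_range] at hk ⊢
    omega
  · intro k hk hk'
    rw [Finset.mem_range, not_lt] at hk'
    by_contra h0
    obtain ⟨j', hj1, hj2⟩ := hu k y h0
    have := r.hd _ _ _ hj hj2
    omega

theorem Fc_gof {n : G} (hn : n ∈ N) {k : ℕ} {f : MC 𝒱 r} (hf : f ∈ Fc 𝒱 r k) :
    gof n • f ∈ Fc 𝒱 r k := by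
  intro y hy
  rw [Submodule.coe_smul, gofq_apply] at hy
  obtain ⟨l, h1, h2⟩ := hf _ hy
  refine ⟨l, h1, ?_⟩
  have h3 := r.hN l n hn _ h2
  rwa [𝒱.hp, smul_inv_smul] at h3

theorem Fc_sc (q : ℚ) {k : ℕ} {f : MC 𝒱 r} (hf : f ∈ Fc 𝒱 r k) :
    𝒱.scM (le_refl N) r.R q f ∈ Fc 𝒱 r k := fun y hy => hf y (spq_scq q (f : FQ Ω) hy)

theorem Fc_step {k : ℕ} {f : MC 𝒱 r} (hf : f ∈ Fc 𝒱 r k) : gof r.t • f ∈ Fc 𝒱 r (k + 1) := by
  intro y hy
  rw [Submodule.coe_smul, gofq_apply] at hy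
  obtain ⟨l, h1, h2⟩ := hf _ hy
  refine ⟨l + 1, by omega, ?_⟩
  have h3 := r.ht l _ h2
  rwa [𝒱.hp, smul_inv_smul] at h3

variable {w : G →* ℤˣ}

/-- The Fox calculus. -/
theorem foxC {d : ℕ} (x : Fin d → G) (hx : Subgroup.closure (Set.range x) = N) (n : G)
    (hn : n ∈ N) :
    ∃ β : Fin d → RR G,
      (∀ j, ∀ (k : ℕ) (m : MC 𝒱 r), m ∈ Fc 𝒱 r k → β j • m ∈ Fc 𝒱 r k) ∧
      ∀ δ : G → Du w (MC 𝒱 r), (∀ g h, δ (g * h) = δ g + gof g • δ h) →
        ∀ m, (δ n).ev m = ∑ j, (δ (x j)).ev (β j • m) := by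
  rw [← hx] at hn
  induction hn using Subgroup.closure_induction with
  | mem n hn =>
    obtain ⟨i, rfl⟩ := hn
    refine ⟨Pi.single i 1, fun j k m hm => ?_, fun δ hδ m => ?_⟩
    · by_cases hj : j = i
      · rw [hj, Pi.single_eq_same, one_smul]
        exact hm
      · rw [Pi.single_eq_of_ne hj, zero_smul]
        exact zero_mem _
    · rw [Finset.sum_eq_single i]
      · rw [Pi.single_eq_same, one_smul]
      · intro j _ hj
        rw [Pi.single_eq_of_ne hj, zero_smul, map_zero]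
      · intro h
        exact absurd (Finset.mem_univ i) h
  | one =>
    refine ⟨0, fun j k m hm => ?_, fun δ hδ m => ?_⟩
    · rw [Pi.zero_apply, zero_smul]
      exact zero_mem _
    · rw [der_one hδ, Du.ev_zero, Finset.sum_eq_zero]
      intro j _
      rw [Pi.zero_apply, zero_smul, map_zero]
  | mul n n' hn hn' h h' =>
    rw [hx] at hn hn'
    obtain ⟨β, hβ, hβ'⟩ := h
    obtain ⟨β', hb, hb'⟩ := h'
    refine ⟨fun j => β j + β' j * (((w n : ℤˣ) : ℤ) • gof n⁻¹), fun j k m hm => ?_,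
      fun δ hδ m => ?_⟩
    · rw [add_smul, mul_smul, smul_assoc]
      exact add_mem (hβ j k m hm) (hb j k _ (zsmul_mem
        (Fc_gof 𝒱 r (N.inv_mem hn) hm) _))
    · rw [hδ, Du.ev_add, Du.ev_gof, hβ' δ hδ, hb' δ hδ, Finset.smul_sum,
        ← Finset.sum_add_distrib]
      refine Finset.sum_congr rfl fun j _ => ?_
      rw [add_smul, map_add, mul_smul, smul_assoc, ← ev_zsmul']
      congr 2
      exact (smul_comm _ _ _)
  | inv n hn h =>
    rw [hx] at hn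
    obtain ⟨β, hβ, hβ'⟩ := h
    refine ⟨fun j => (β j * (((-(w n : ℤˣ) : ℤˣ) : ℤ) • gof n)), fun j k m hm => ?_,
      fun δ hδ m => ?_⟩
    · rw [mul_smul, smul_assoc]
      exact hβ j k _ (zsmul_mem (Fc_gof 𝒱 r hn hm) _)
    · rw [der_inv hδ, Du.ev_neg, Du.ev_gof, hβ' δ hδ, Finset.smul_sum, ← Finset.sum_neg_distrib]
      refine Finset.sum_congr rfl fun j _ => ?_
      rw [mul_smul, smul_assoc, ← ev_zsmul', inv_inv, map_inv, Int.units_inv_eq_self,
        ← map_neg, Units.val_neg]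
      congr 1
      have e1 : (-((w n : ℤˣ) : ℤ)) • (gof n • m) = -(((w n : ℤˣ) : ℤ) • (gof n • m)) :=
        neg_smul _ _
      rw [e1, smul_neg, smul_comm]

/-- The pushing operator. -/
theorem exists_Z {d : ℕ} (x : Fin d → G) (hx : Subgroup.closure (Set.range x) = N)
    (hs : (As N r.t).index ≠ 0) :
    ∃ Z : (Fin d → MC 𝒱 r) →+ (Fin d → MC 𝒱 r),
      (∀ δ : G → Du w (MC 𝒱 r), (∀ g h, δ (g * h) = δ g + gof g • δ h) →
        ∀ c, bdy w x c = 0 → ∑ j, (δ (x j)).ev (c j) = ∑ j, (δ (x j)).ev (Z c j)) ∧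
      (∀ c, bdy w x c = 0 → bdy w x (Z c) = 0) ∧
      (∀ (k : ℕ) (c : Fin d → MC 𝒱 r), (∀ j, c j ∈ Fc 𝒱 r k) →
        ∀ j, Z c j ∈ Fc 𝒱 r (k + 1)) := by
  set s := r.t with hst
  have hfi : (As N s).FiniteIndex := ⟨hs⟩
  have hF : Fintype (N ⧸ As N s) := Fintype.ofFinite _
  let q : ℕ := Fintype.card (N ⧸ As N s)
  have hq : (q : ℚ) ≠ 0 := by
    have h1 : q ≠ 0 := Fintype.card_ne_zero
    exact_mod_cast h1
  have hxN : ∀ j, x j ∈ N := fun j => by
    rw [← hx]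
    exact Subgroup.subset_closure ⟨j, rfl⟩
  let xN : Fin d → N := fun j => ⟨x j, hxN j⟩
  let r' : Fin d → N ⧸ As N s → G := fun j i => ((rp (xN j • i) : N) : G) * s⁻¹
  let n' : Fin d → N ⧸ As N s → G := fun j i =>
    s * ((((rp (xN j • i))⁻¹ * xN j * rp i : N)) : G) * s⁻¹
  have hn' : ∀ j i, n' j i ∈ N := by
    intro j i
    have h1 : (rp (xN j • i))⁻¹ * (xN j * rp i) ∈ As N s := by
      rw [← QuotientGroup.eq, mk_rp]
      conv_lhs => rw [← mk_rp i]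
      rfl
    rw [← mul_assoc] at h1
    exact h1
  choose β hβ hβ' using fun (j : Fin d) (i : N ⧸ As N s) =>
    foxC 𝒱 r (w := w) x hx (n' j i) (hn' j i)
  let Γ : Fin d → Fin d → RR G := fun l j =>
    ∑ i, β j i l * (((w (r' j i) : ℤˣ) : ℤ) • gof (r' j i)⁻¹)
  let L : (Fin d → MC 𝒱 r) → Fin d → MC 𝒱 r := fun c l => ∑ j, Γ l j • c j
  have hmain : ∀ δ : G → Du w (MC 𝒱 r), (∀ g h, δ (g * h) = δ g + gof g • δ h) → ∀ c,
      ((q : ℕ) : ℤ) • ∑ j, (δ (x j)).ev (c j) +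
        (∑ i : N ⧸ As N s, δ (((rp i : N) : G) * s⁻¹)).ev (bdy w x c) =
      ∑ l, (δ (x l)).ev (L c l) := by
    intro δ hδ c
    have h1 : ∀ l, (δ (x l)).ev (L c l) = ∑ j, ∑ i, (δ (x l)).ev
        (β j i l • (((w (r' j i) : ℤˣ) : ℤ) • gof (r' j i)⁻¹ • c j)) := by
      intro l
      change (δ (x l)).ev (∑ j, Γ l j • c j) = _
      rw [map_sum]
      refine Finset.sum_congr rfl fun j _ => ?_
      change (δ (x l)).ev ((∑ i, β j i l * (((w (r' j i) : ℤˣ) : ℤ) • gof (r' j i)⁻¹)) • c j) = _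
      rw [Finset.sum_smul, map_sum]
      refine Finset.sum_congr rfl fun i _ => ?_
      rw [mul_smul, smul_assoc]
    rw [Finset.sum_congr rfl fun l _ => h1 l, Finset.sum_comm]
    rw [ev_bdy, Finset.smul_sum, ← Finset.sum_add_distrib]
    refine Finset.sum_congr rfl fun j _ => ?_
    rw [Finset.sum_comm]
    have h2 : ∀ i, ∑ l, (δ (x l)).ev
        (β j i l • (((w (r' j i) : ℤˣ) : ℤ) • gof (r' j i)⁻¹ • c j)) =
        (gof (r' j i) • δ (n' j i)).ev (c j) := by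
      intro i
      rw [← hβ' j i δ hδ, Du.ev_gof, ev_zsmul']
    rw [Finset.sum_congr rfl fun i _ => h2 i, ← Du.ev_sum]
    have h3 := transfer_id δ hδ (As N s) s (xN j)
    have h4 : ∑ i, gof (r' j i) • δ (n' j i) = ∑ i : N ⧸ As N s,
      gof (((rp (xN j • i) : N) : G) * s⁻¹) •
      δ (s * ((((rp (xN j • i))⁻¹ * xN j * rp i : N)) : G) * s⁻¹) := rfl
    rw [h4, h3, Du.ev_add]
    rfl
  let Z : (Fin d → MC 𝒱 r) →+ (Fin d → MC 𝒱 r) := AddMonoidHom.mk'
    (fun c l => 𝒱.scM (le_refl N) r.R (q : ℚ)⁻¹ (L c l)) (by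
      intro c c'
      funext l
      change 𝒱.scM (le_refl N) r.R (q : ℚ)⁻¹ (∑ j, Γ l j • (c + c') j) =
        𝒱.scM (le_refl N) r.R (q : ℚ)⁻¹ (∑ j, Γ l j • c j) +
          𝒱.scM (le_refl N) r.R (q : ℚ)⁻¹ (∑ j, Γ l j • c' j)
      rw [← map_add, ← Finset.sum_add_distrib]
      congr 1
      exact Finset.sum_congr rfl fun j _ => by rw [Pi.add_apply, smul_add])
  have hZ : ∀ c l, Z c l = 𝒱.scM (le_refl N) r.R (q : ℚ)⁻¹ (L c l) := fun c l => rfl
  -- division by the index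
  have hZ' : ∀ c l, Z c l = L (fun j => 𝒱.scM (le_refl N) r.R (q : ℚ)⁻¹ (c j)) l := by
    intro c l
    rw [hZ]
    change 𝒱.scM (le_refl N) r.R (q : ℚ)⁻¹ (∑ j, Γ l j • c j) =
      ∑ j, Γ l j • 𝒱.scM (le_refl N) r.R (q : ℚ)⁻¹ (c j)
    rw [map_sum]
    exact Finset.sum_congr rfl fun j _ => 𝒱.scM_smul (le_refl N) _ _ _
  have hqs : ∀ m : MC 𝒱 r, ((q : ℕ) : ℤ) • 𝒱.scM (le_refl N) r.R (q : ℚ)⁻¹ m = m := by
    intro m
    apply Subtype.ext
    refine fq_ext fun y => ?_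
    have h1 : ∀ (z : ℤ) (f : MC 𝒱 r), ((z • f : MC 𝒱 r) : FQ Ω) y =
        (z : ℚ) * (f : FQ Ω) y := by
      intro z f
      have h2 : ((z • f : MC 𝒱 r) : FQ Ω) y = z • ((f : FQ Ω) y) := rfl
      rw [h2, zsmul_eq_mul]
    rw [h1, 𝒱.scM_coe, scq_apply, Int.cast_natCast, mul_inv_cancel_left₀ hq]
  have hbs : ∀ c : Fin d → MC 𝒱 r,
      bdy w x (fun j => 𝒱.scM (le_refl N) r.R (q : ℚ)⁻¹ (c j)) =
        𝒱.scM (le_refl N) r.R (q : ℚ)⁻¹ (bdy w x c) := by
    intro c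
    unfold bdy
    rw [map_sum]
    refine Finset.sum_congr rfl fun j _ => ?_
    rw [map_sub, map_zsmul, 𝒱.scM_smul (le_refl N)]
  have hone : ∀ δ : G → Du w (MC 𝒱 r), (∀ g h, δ (g * h) = δ g + gof g • δ h) →
      ∀ c, bdy w x c = 0 → ∑ j, (δ (x j)).ev (c j) = ∑ j, (δ (x j)).ev (Z c j) := by
    intro δ hδ c hc
    have h1 := hmain δ hδ (fun j => 𝒱.scM (le_refl N) r.R (q : ℚ)⁻¹ (c j))
    rw [hbs, hc, map_zero, map_zero, add_zero, Finset.smul_sum] at h1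
    have h2 : ∀ j, ((q : ℕ) : ℤ) • (δ (x j)).ev (𝒱.scM (le_refl N) r.R (q : ℚ)⁻¹ (c j)) =
        (δ (x j)).ev (c j) := by
      intro j
      rw [← ev_zsmul', hqs]
    rw [Finset.sum_congr rfl fun j _ => h2 j] at h1
    rw [h1]
    exact Finset.sum_congr rfl fun l _ => by rw [hZ']
  refine ⟨Z, hone, fun c hc => ?_, fun k c hc l => ?_⟩
  · refine eq_zero_of_ev w fun ψ => ?_
    have h1 := hone (fun g => gof g • ψ - ψ) (by
      intro g h
      rw [gof_mul, mul_smul, smul_sub]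
      abel) c hc
    rw [← ev_bdy, ← ev_bdy, hc, map_zero] at h1
    exact h1.symm
  · rw [hZ]
    refine Fc_sc 𝒱 r _ ?_
    refine sum_mem fun j _ => ?_
    change (∑ i, β j i l * (((w (r' j i) : ℤˣ) : ℤ) • gof (r' j i)⁻¹)) • c j ∈ _
    rw [Finset.sum_smul]
    refine sum_mem fun i _ => ?_
    rw [mul_smul, smul_assoc]
    refine hβ j i l _ _ (zsmul_mem ?_ _)
    have h1 : (r' j i)⁻¹ = s * (((rp (xN j • i) : N) : G))⁻¹ := by
      change (((rp (xN j • i) : N) : G) * s⁻¹)⁻¹ = _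
      group
    have hmem : (((rp (xN j • i) : N) : G))⁻¹ ∈ N := N.inv_mem (rp (xN j • i)).2
    rw [h1, gof_mul, mul_smul]
    exact Fc_step 𝒱 r (Fc_gof 𝒱 r hmem (hc j))

/-- Cycles over the cone pair to zero with all derivations. -/
theorem pushC {d : ℕ} (x : Fin d → G) (hx : Subgroup.closure (Set.range x) = N)
    (hs : (As N r.t).index ≠ 0) (δ : G → Du w (MC 𝒱 r))
    (hδ : ∀ g h, δ (g * h) = δ g + gof g • δ h) (c : Fin d → MC 𝒱 r)
    (hc : ∀ j, c j ∈ Fc 𝒱 r 0) (hbc : bdy w x c = 0) : ∑ j, (δ (x j)).ev (c j) = 0 := by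
  have hxN : ∀ j, x j ∈ N := fun j => by
    rw [← hx]
    exact Subgroup.subset_closure ⟨j, rfl⟩
  obtain ⟨Z0, hZ1, hZ2, hZ3⟩ := exists_Z 𝒱 r (w := w) x hx hs
  -- the group of cycles over the cone
  let W : AddSubgroup (Fin d → MC 𝒱 r) :=
    { carrier := {u | (∀ j, u j ∈ Fc 𝒱 r 0) ∧ bdy w x u = 0}
      zero_mem' := ⟨fun j => zero_mem _, bdy_zero w x⟩
      add_mem' := fun ha hb => ⟨fun j => add_mem (ha.1 j) (hb.1 j), by
        rw [bdy_add, ha.2, hb.2, add_zero]⟩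
      neg_mem' := fun ha => ⟨fun j => neg_mem (ha.1 j), by rw [bdy_neg, ha.2, neg_zero]⟩ }
  let F : ℕ → AddSubgroup W := fun k =>
    { carrier := {u | ∀ j, (u : Fin d → MC 𝒱 r) j ∈ Fc 𝒱 r k}
      zero_mem' := fun j => zero_mem _
      add_mem' := fun ha hb j => add_mem (ha j) (hb j)
      neg_mem' := fun ha j => neg_mem (ha j) }
  let Z : W →+ W := AddMonoidHom.mk' (fun u => ⟨Z0 u.1,
      fun j => Fc_mono 𝒱 r 0 (hZ3 0 u.1 u.2.1 j), hZ2 _ u.2.2⟩)
    (fun u u' => Subtype.ext (map_add Z0 u.1 u'.1))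
  obtain ⟨s, hs, hs'⟩ := exists_fix' F (fun k u hu j => Fc_mono 𝒱 r k (hu j))
    (fun u hu => Subtype.ext (funext fun j => Fc_sep 𝒱 r _ fun l => hu l j))
    (by
      intro u hu
      choose s hs using fun j => Fc_comp 𝒱 r (fun k => (u k : Fin d → MC 𝒱 r) j)
        (fun k => hu k j)
      have hcoe : ∀ l : ℕ, ((∑ k ∈ Finset.range l, u k : W) : Fin d → MC 𝒱 r) =
          ∑ k ∈ Finset.range l, (u k : Fin d → MC 𝒱 r) := by
        intro l
        exact AddSubmonoidClass.coe_finsetSum _ _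
      have hlev : ∀ l j, s j - ∑ k ∈ Finset.range l, (u k : Fin d → MC 𝒱 r) j ∈
          Fc 𝒱 r l := fun l j => hs j l
      have hs0 : ∀ j, s j ∈ Fc 𝒱 r 0 := by
        intro j
        have := hs j 0
        rwa [Finset.range_zero, Finset.sum_empty, sub_zero] at this
      have hsb : bdy w x s = 0 := by
        refine Fc_sep 𝒱 r _ fun l => ?_
        have h1 : s = (s - ∑ k ∈ Finset.range l, (u k : Fin d → MC 𝒱 r)) +
            ∑ k ∈ Finset.range l, (u k : Fin d → MC 𝒱 r) := by abel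
        have h2 : bdy w x (∑ k ∈ Finset.range l, (u k : Fin d → MC 𝒱 r)) = 0 := by
          rw [← hcoe]
          exact (∑ k ∈ Finset.range l, u k : W).2.2
        rw [h1, bdy_add, h2, add_zero]
        have h3 : ∀ j, (s - ∑ k ∈ Finset.range l, (u k : Fin d → MC 𝒱 r)) j ∈
            Fc 𝒱 r l := by
          intro j
          rw [Pi.sub_apply, Finset.sum_apply]
          exact hlev l j
        refine sum_mem fun j _ => sub_mem (zsmul_mem ?_ _) (h3 j)
        exact Fc_gof 𝒱 r (N.inv_mem (hxN j)) (h3 j)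
      refine ⟨⟨s, hs0, hsb⟩, fun l j => ?_⟩
      have h4 : (((⟨s, hs0, hsb⟩ : W) - ∑ k ∈ Finset.range l, u k : W) :
          Fin d → MC 𝒱 r) j = s j -
          ∑ k ∈ Finset.range l, (u k : Fin d → MC 𝒱 r) j := by
        rw [AddSubgroup.coe_sub, Pi.sub_apply, hcoe, Finset.sum_apply]
      rw [h4]
      exact hlev l j) Z
    (fun k u hu j => hZ3 k u.1 hu j) ⟨c, hc, hbc⟩ hc
  have h1 : c = (s : Fin d → MC 𝒱 r) - Z0 s.1 := (congrArg Subtype.val hs').symm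
  have h2 : ∑ j, (δ (x j)).ev (Z0 s.1 j) = ∑ j, (δ (x j)).ev ((s : Fin d → MC 𝒱 r) j) :=
    (hZ1 δ hδ _ s.2.2).symm
  have h6 : ∀ j, c j = (s : Fin d → MC 𝒱 r) j - Z0 s.1 j := fun j => by
    conv_lhs => rw [h1]
    rfl
  rw [Finset.sum_congr rfl fun j _ => by rw [h6 j, map_sub], Finset.sum_sub_distrib, h2, sub_self]

/-- Derivations with values in the characters of the functions over a cone are inner on functions
with support in finitely many cells. -/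
theorem resInner_cone {d : ℕ} (x : Fin d → G)
    (hx : Subgroup.closure (Set.range x) = N)
    (hs : (As N r.t).index ≠ 0) (hr0 : ((1 : G) : G ⧸ N) ∈ r.L 0)
    (hne : r.R.Nonempty) : ResInner w (𝒱.V_le_MQ (le_refl N) hne) := by
  intro δ hδ
  refine 𝒱.inner_of_base x hx _ (resD_der _ hδ) fun c hc hbc => ?_
  refine pushC 𝒱 r x hx hs δ hδ
    (fun j => Submodule.inclusion (𝒱.V_le_MQ (le_refl N) hne) (c j))
    (fun j y hy => ⟨0, le_rfl, ?_⟩) ?_
  · have h1 : 𝒱.p y = ((1 : G) : G ⧸ N) := hc j y hy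
    rw [h1]
    exact hr0
  · have h1 : bdy w x (fun j => Submodule.inclusion (𝒱.V_le_MQ (le_refl N) hne) (c j)) =
        Submodule.inclusion (𝒱.V_le_MQ (le_refl N) hne) (bdy w x c) := by
      unfold bdy
      rw [map_sum]
      refine Finset.sum_congr rfl fun j _ => ?_
      rw [map_sub, map_zsmul, LinearMap.map_smul]
    rw [h1, hbc, map_zero]

end

end Pool.Agent.J4H59.PI
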