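import Pool.Agent.J4H59.PG.AscF
import Pool.Agent.J4H59.PI.AsmZ

/-!
# Commensurators of free products
-/

set_option autoImplicit false
set_option linter.unusedSectionVars false

open scoped Classical Pointwise

namespace Pool.Agent.J4H59.PI

open Pool.Agent.Helper386.PD3 Pool.Agent.J4H59.PD Pool.Agent.J4H59.PE Pool.Agent.J4H59.PF
open Pool.Agent.J4H59.PG Pool.Agent.Helper158

noncomputable section

variable {G : Type} [Group G] {ι : Type} {N K H : Subgroup G} {A : ι → Subgroup G}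

theorem as_eq (s : G) : (As N s).index = N.relIndex (cc s N) := by
  let c : G →* G := (MulAut.conj s).toMonoidHom
  have h1 : As N s = (N.comap c).subgroupOf N := by
    ext n
    rw [Subgroup.mem_subgroupOf, Subgroup.mem_comap]
    rfl
  have h2 : (As N s).index = N.relIndex (N.map c) := by
    rw [h1, ← Subgroup.relIndex_comap]
    rfl
  rw [h2]
  congr 1

theorem as_of_comm {h : G} (hh : h ∈ Subgroup.Commensurable.commensurator N) :
    (As N h).index ≠ 0 := by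
  rw [as_eq]
  exact (mem_comm.1 hh).2

theorem at_of_as {B : Subgroup G} (hB : B ≤ N) {s : G} (hs : (As N s).index ≠ 0) :
    (At N B s).index ≠ 0 := by
  let c : G →* G := (MulAut.conj s).toMonoidHom
  have h1 : As N s = (N.comap c).subgroupOf N := by
    ext n
    rw [Subgroup.mem_subgroupOf, Subgroup.mem_comap]
    rfl
  have h2 : At N B s = (N.comap c).subgroupOf B := by
    ext n
    rw [Subgroup.mem_subgroupOf, Subgroup.mem_comap]
    rfl
  rw [h1] at hs
  rw [h2]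
  exact mt (Subgroup.relIndex_eq_zero_of_le_right hB) hs

/-- conjugates of a factor with one end are commensurable to conjugates of factors -/
theorem exists_factor' (htf : ∀ (x : G) (k : ℤ), k ≠ 0 → x ^ k = 1 → x = 1) (hfp : FPd N A)
    (hAfg : ∀ i, (A i).FG) {i : ι} (hi : A i ≠ ⊥) (hone : AllDer (G := A i) (RR (A i)))
    {m : G} (hfin : (At N (A i) m).index ≠ 0) :
    ∃ n ∈ N, ∃ j : ι, (∀ a ∈ A i, m * a * m⁻¹ ∈ N → n⁻¹ * (m * a * m⁻¹) * n ∈ A j) ∧
      ¬ Nonempty (A j ≃* Multiplicative ℤ) := by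
  have hfi : (At N (A i) m).FiniteIndex := ⟨hfin⟩
  have hAfg' : Group.FG (A i) := (Group.fg_iff_subgroup_fg _).2 (hAfg i)
  have hCfg : Group.FG (At N (A i) m) := inferInstance
  have hCone : AllDer (G := At N (A i) m) (RR (At N (A i) m)) := allDer_fi hone _ hfin
  have hC1 : ∃ c : At N (A i) m, c ≠ 1 := by
    obtain ⟨⟨b, hb⟩, hb1⟩ := Subgroup.ne_bot_iff_exists_ne_one.1 hi
    have hb1 : b ≠ 1 := fun h => hb1 (Subtype.ext h)
    obtain ⟨e, he, -, he'⟩ := Subgroup.exists_pow_mem_of_index_ne_zero hfin (⟨b, hb⟩ : A i)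
    refine ⟨⟨_, he'⟩, fun h1 => hb1 (htf b e (by exact_mod_cast he.ne') ?_)⟩
    have h2 := congrArg (fun x : At N (A i) m => ((x : A i) : G)) h1
    rw [zpow_natCast]
    exact h2
  let ψ : At N (A i) m →* G := (MulAut.conj m).toMonoidHom.comp
    ((A i).subtype.comp (At N (A i) m).subtype)
  have hψ : ∀ c, ψ c = m * ((c : A i) : G) * m⁻¹ := fun c => rfl
  have hψi : Function.Injective ψ := by
    intro c c' h
    exact Subtype.ext (Subtype.ext ((MulAut.conj m).injective h))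
  obtain ⟨n, hn, j, hj⟩ := hfp.conj hCfg hCone hC1 ψ hψi fun c => c.2
  refine ⟨n, hn, j, fun a ha hma => ?_, ?_⟩
  · exact hj ⟨⟨a, ha⟩, hma⟩
  · rintro ⟨e⟩
    let θ : At N (A i) m →* A j :=
      { toFun := fun c => ⟨n⁻¹ * ψ c * n, hj c⟩
        map_one' := Subtype.ext (by
          change n⁻¹ * ψ 1 * n = 1
          rw [map_one, mul_one, inv_mul_cancel])
        map_mul' := fun c c' => Subtype.ext (by
          change n⁻¹ * ψ (c * c') * n = (n⁻¹ * ψ c * n) * (n⁻¹ * ψ c' * n)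
          rw [map_mul]
          group) }
    refine not_cyc hCone ?_ hC1 (e.toMonoidHom.comp θ) ?_
    · intro x k hk hx
      apply Subtype.ext
      apply Subtype.ext
      refine htf _ k hk ?_
      exact congrArg (fun x : At N (A i) m => ((x : A i) : G)) hx
    · intro c c' h
      have h1 : θ c = θ c' := e.injective h
      have h2 : n⁻¹ * ψ c * n = n⁻¹ * ψ c' * n := congrArg Subtype.val h1
      exact hψi (mul_left_cancel (mul_right_cancel h2))

theorem comm_of' (htf : ∀ (x : G) (k : ℤ), k ≠ 0 → x ^ k = 1 → x = 1) (hfp : FPd N A)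
    (hAfg : ∀ i, (A i).FG)
    (hA : ∀ i, Nonempty (A i ≃* Multiplicative ℤ) ∨ AllDer (G := A i) (RR (A i)))
    {i : ι} (hi : A i ≠ ⊥) (hone : AllDer (G := A i) (RR (A i)))
    {m : G} (hm : ∀ j, (At N (A j) m).index ≠ 0)
    (hm' : ∀ n ∈ N, ∀ j, (At N (A j) (m⁻¹ * n)).index ≠ 0) :
    ∃ n ∈ N, ∃ j : ι, Subgroup.Commensurable (cc (m⁻¹ * n) (A j)) (A i) := by
  obtain ⟨n, hn, j, hj, hcyc⟩ := exists_factor' htf hfp hAfg hi hone (hm i)
  have hfin : (At N (A i) m).index ≠ 0 := hm i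
  -- a nontrivial element
  obtain ⟨a, haA, ha1, haN⟩ : ∃ a ∈ A i, a ≠ 1 ∧ m * a * m⁻¹ ∈ N := by
    obtain ⟨⟨b, hb⟩, hb1⟩ := Subgroup.ne_bot_iff_exists_ne_one.1 hi
    have hb1 : b ≠ 1 := fun h => hb1 (Subtype.ext h)
    obtain ⟨e, he, -, he'⟩ := Subgroup.exists_pow_mem_of_index_ne_zero hfin (⟨b, hb⟩ : A i)
    refine ⟨b ^ e, (A i).pow_mem hb e, fun h1 => hb1 (htf b e (by exact_mod_cast he.ne') ?_), he'⟩
    rw [zpow_natCast]
    exact h1
  have hconj1 : ∀ x : G, (m⁻¹ * n)⁻¹ * x * (m⁻¹ * n) = n⁻¹ * (m * x * m⁻¹) * n := by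
    intro x
    group
  have haj : (m⁻¹ * n)⁻¹ * a * (m⁻¹ * n) ∈ A j := by
    rw [hconj1]
    exact hj a haA haN
  have haj1 : (m⁻¹ * n)⁻¹ * a * (m⁻¹ * n) ≠ 1 := by
    intro h
    apply ha1
    have h1 : a = (m⁻¹ * n) * ((m⁻¹ * n)⁻¹ * a * (m⁻¹ * n)) * (m⁻¹ * n)⁻¹ := by group
    rw [h1, h, mul_one, mul_inv_cancel]
  have hjne : A j ≠ ⊥ := by
    intro h
    rw [h, Subgroup.mem_bot] at haj
    exact haj1 haj
  have hjone : AllDer (G := A j) (RR (A j)) := (hA j).resolve_left hcyc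
  have hfin' : (At N (A j) (m⁻¹ * n)).index ≠ 0 := hm' n hn j
  obtain ⟨n', hn', j', hj', -⟩ := exists_factor' htf hfp hAfg hjne hjone hfin'
  have hback : (m⁻¹ * n) * ((m⁻¹ * n)⁻¹ * a * (m⁻¹ * n)) * (m⁻¹ * n)⁻¹ = a := by group
  have h1 := hj' _ haj (by rw [hback]; exact hfp.le i haA)
  rw [hback] at h1
  obtain ⟨hij, hn'i⟩ := hfp.mal hn' ha1 haA h1
  subst hij
  have hj2 : ∀ b ∈ A j, (m⁻¹ * n) * b * (m⁻¹ * n)⁻¹ ∈ N → (m⁻¹ * n) * b * (m⁻¹ * n)⁻¹ ∈ A i := by
    intro b hb hbN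
    have h2 := hj' b hb hbN
    have h3 : (m⁻¹ * n) * b * (m⁻¹ * n)⁻¹ =
        n' * (n'⁻¹ * ((m⁻¹ * n) * b * (m⁻¹ * n)⁻¹) * n') * n'⁻¹ := by group
    rw [h3]
    exact (A i).mul_mem ((A i).mul_mem hn'i h2) ((A i).inv_mem hn'i)
  refine ⟨n, hn, j, ?_, ?_⟩
  · have h2 : At N (A i) m ≤ (cc (m⁻¹ * n) (A j)).subgroupOf (A i) := by
      intro b hb
      rw [Subgroup.mem_subgroupOf, mem_cc, hconj1]
      exact hj b b.2 hb
    exact fun h3 => hfin (Nat.eq_zero_of_zero_dvd (by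
      rw [← h3]
      exact Subgroup.index_dvd_of_le h2))
  · have h2 : At N (A j) (m⁻¹ * n) ≤ (cc (m⁻¹ * n)⁻¹ (A i)).subgroupOf (A j) := by
      intro b hb
      rw [Subgroup.mem_subgroupOf, mem_cc, inv_inv]
      exact hj2 b b.2 hb
    have h3 : (cc (m⁻¹ * n)⁻¹ (A i)).relIndex (A j) ≠ 0 :=
      fun h3 => hfin' (Nat.eq_zero_of_zero_dvd (by
        rw [← h3]
        exact Subgroup.index_dvd_of_le h2))
    have h4 : (A i).relIndex (cc (m⁻¹ * n) (A j)) = (cc (m⁻¹ * n)⁻¹ (A i)).relIndex (A j) := by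
      have h5 := Subgroup.relIndex_pointwise_smul (h := ConjAct.toConjAct (m⁻¹ * n)⁻¹)
        (A i) (cc (m⁻¹ * n) (A j))
      rw [← h5]
      congr 1
      change cc (m⁻¹ * n)⁻¹ (cc (m⁻¹ * n) (A j)) = A j
      rw [← cc_mul, inv_mul_cancel]
      ext z
      rw [mem_cc, inv_one, one_mul, mul_one]
    rw [h4]
    exact h3

/-- The commensurator of a factor has finite index modulo `K`. -/
theorem index_sup' [Finite ι] (htf : ∀ (x : G) (k : ℤ), k ≠ 0 → x ^ k = 1 → x = 1)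
    (hfp : FPd N A) (hAfg : ∀ i, (A i).FG)
    (hA : ∀ i, Nonempty (A i ≃* Multiplicative ℤ) ∨ AllDer (G := A i) (RR (A i)))
    {i : ι} (hi : A i ≠ ⊥) (hone : AllDer (G := A i) (RR (A i)))
    (hNK : N ≤ K) (hKH : K ≤ H) (hHK : H ≤ Subgroup.normalizer (K : Set G))
    (hcm : ∀ h ∈ H, (As N h).index ≠ 0) :
    (K ⊔ (Subgroup.Commensurable.commensurator (A i) ⊓ H)).relIndex H ≠ 0 := by
  have hNH : N ≤ H := hNK.trans hKH
  choose n hn j hj using fun m : H => comm_of' htf hfp hAfg hA hi hone (m := (m : G))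
    (fun j => at_of_as (hfp.le j) (hcm m m.2))
    (fun n hn j => at_of_as (hfp.le j) (hcm _ (H.mul_mem (H.inv_mem m.2) (hNH hn))))
  set T := K ⊔ (Subgroup.Commensurable.commensurator (A i) ⊓ H) with hT
  have key : ∀ m m' : H, j m = j m' → (m : G)⁻¹ * m' ∈ T := by
    intro m m' h
    have h1 : Subgroup.Commensurable (cc ((m : G)⁻¹ * n m) (A (j m))) (A i) := hj m
    have h2 : Subgroup.Commensurable (cc ((m' : G)⁻¹ * n m') (A (j m))) (A i) := by
      rw [h]
      exact hj m'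
    set x := (m : G)⁻¹ * n m with hx
    set x' := (m' : G)⁻¹ * n m' with hx'
    have h3 : x * x'⁻¹ ∈ Subgroup.Commensurable.commensurator (A i) := by
      rw [mem_comm]
      have h4 : Subgroup.Commensurable (cc (x * x'⁻¹) (A i)) (cc (x * x'⁻¹) (cc x' (A (j m)))) :=
        cc_comm h2.symm
      rw [← cc_mul, inv_mul_cancel_right] at h4
      exact h4.trans h1
    have h4 : x * x'⁻¹ ∈ H := H.mul_mem (H.mul_mem (H.inv_mem m.2) (hNH (hn m)))
      (H.inv_mem (H.mul_mem (H.inv_mem m'.2) (hNH (hn m'))))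
    have h5 : (m : G)⁻¹ * m' = ((m : G)⁻¹ * (n m * (n m')⁻¹)⁻¹ * (m : G)⁻¹⁻¹) * (x * x'⁻¹) := by
      rw [hx, hx']
      group
    rw [h5]
    refine T.mul_mem (Subgroup.mem_sup_left ?_) (Subgroup.mem_sup_right ⟨h3, h4⟩)
    refine (Subgroup.mem_normalizer_iff.1 (Subgroup.inv_mem _ (hHK m.2)) _).1 ?_
    exact K.inv_mem (K.mul_mem (hNK (hn m)) (K.inv_mem (hNK (hn m'))))
  have hfin : Finite (H ⧸ T.subgroupOf H) := by
    refine Finite.of_injective (fun q : H ⧸ T.subgroupOf H => j (Quotient.out q)) ?_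
    intro q q' hqq
    rw [← Quotient.out_eq' q, ← Quotient.out_eq' q']
    change (QuotientGroup.mk (Quotient.out q : H) : H ⧸ T.subgroupOf H) =
      QuotientGroup.mk (Quotient.out q' : H)
    rw [QuotientGroup.eq, Subgroup.mem_subgroupOf]
    exact key _ _ hqq
  exact Subgroup.index_ne_zero_of_finite (H := T.subgroupOf H)

/-- Infinite quotients for free products. -/
theorem le_factor' [Finite ι] {n : ℕ} {w : G →* ℤˣ} {e0 e1 e2 e3 d0 d1 d2 : MR G n}
    (h : Full w e0 e1 e2 e3 d0 d1 d2) (hfgG : Group.FG G) (hG : AllDer (G := G) (RR G))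
    (htf : ∀ (x : G) (k : ℤ), k ≠ 0 → x ^ k = 1 → x = 1) (hfp : FPd N A) (hAfg : ∀ i, (A i).FG)
    (hA : ∀ i, Nonempty (A i ≃* Multiplicative ℤ) ∨ AllDer (G := A i) (RR (A i)))
    {i : ι} (hi : A i ≠ ⊥) (hone : AllDer (G := A i) (RR (A i)))
    (hNK : N ≤ K) (hKH : K ≤ H) (hcm : ∀ h ∈ H, (As N h).index ≠ 0)
    (hHK : H ≤ Subgroup.normalizer (K : Set G)) {F : Finset G}
    (hF : H = K ⊔ Subgroup.closure (F : Set G)) (hinf : K.relIndex H = 0) : N ≤ A i := by
  set J := Subgroup.Commensurable.commensurator (A i) ⊓ H with hJ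
  set L := Subgroup.Commensurable.commensurator (A i) ⊓ K with hL
  have hAL : A i ≤ L := by
    refine le_inf (fun a ha => ?_) ((hfp.le i).trans hNK)
    rw [mem_comm]
    have h1 : cc a (A i) = A i := by
      ext z
      rw [mem_cc]
      constructor
      · intro h
        have h2 : z = a * (a⁻¹ * z * a) * a⁻¹ := by group
        rw [h2]
        exact (A i).mul_mem ((A i).mul_mem ha h) ((A i).inv_mem ha)
      · intro h
        exact (A i).mul_mem ((A i).mul_mem ((A i).inv_mem ha) h) ha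
    rw [h1]
  have hJH : J ≤ H := inf_le_right
  have hLJ : L ≤ J := le_inf inf_le_left (inf_le_right.trans hKH)
  have hJL : J ≤ Subgroup.normalizer (L : Set G) := by
    intro g hg
    rw [Subgroup.mem_normalizer_iff]
    intro x
    have h1 := Subgroup.mem_normalizer_iff.1 (hHK hg.2) x
    constructor
    · intro hx
      exact ⟨Subgroup.mul_mem _ (Subgroup.mul_mem _ hg.1 hx.1) (Subgroup.inv_mem _ hg.1),
        h1.1 hx.2⟩
    · intro hx
      refine ⟨?_, h1.2 hx.2⟩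
      have h2 : x = g⁻¹ * (g * x * g⁻¹) * g := by group
      rw [h2]
      exact Subgroup.mul_mem _ (Subgroup.mul_mem _ (Subgroup.inv_mem _ hg.1) hx.1) hg.1
  have hidx : (K ⊔ J).relIndex H ≠ 0 := index_sup' htf hfp hAfg hA hi hone hNK hKH hHK hcm
  obtain ⟨F', hF'J, hF'⟩ := exists_fin hKH hHK hJH hF hidx
  set J' := L ⊔ Subgroup.closure (F' : Set G) with hJ'
  have hJ'J : J' ≤ J := sup_le hLJ ((Subgroup.closure_le _).2 hF'J)
  have hinf' : L.relIndex J' = 0 := by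
    by_contra hcon
    have h1 : K ⊓ J' = L := by
      apply le_antisymm
      · rintro x ⟨hx, hx'⟩
        exact ⟨(hJ'J hx').1, hx⟩
      · exact le_inf inf_le_right le_sup_left
    have h2 : K.relIndex (K ⊔ J') ≠ 0 := by
      rw [relIndex_sup_norm ((hJ'J.trans hJH).trans hHK), ← Subgroup.inf_relIndex_right, h1]
      exact hcon
    have h3 : K ⊔ J ≤ K ⊔ J' := by
      refine sup_le le_sup_left (hF'.trans (sup_le_sup_left ?_ _))
      exact le_sup_right
    have h4 : K.relIndex (K ⊔ J) ≠ 0 := mt (Subgroup.relIndex_eq_zero_of_le_right h3) h2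
    have h5 := Subgroup.relIndex_mul_relIndex K (K ⊔ J) H le_sup_left (sup_le hKH hJH)
    rw [hinf] at h5
    rcases mul_eq_zero.1 h5 with h6 | h6
    · exact h4 h6
    · exact hidx h6
  have hinfi : Infinite (A i) := inf_of_ne_bot htf hi
  obtain ⟨-, t, htJ, -, -, hidx2⟩ := main_line h hfgG hG htf (hAfg i) hinfi hone hAL
    (le_sup_left : L ≤ J') (fun g hg => as_of_comm (hJ'J hg).1) (hJ'J.trans hJL) rfl hinf'
  refine le_of_relIndex htf hfp hi ?_
  have h1 : (A i ⊔ Subgroup.zpowers t).relIndex N ≠ 0 := by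
    rw [← Subgroup.relIndex_top_right] at hidx2
    exact mt (Subgroup.relIndex_eq_zero_of_le_right le_top) hidx2
  rw [← Subgroup.inf_relIndex_right] at h1
  refine mt (Subgroup.relIndex_eq_zero_of_le_left ?_) h1
  rintro x ⟨hx, hxN⟩
  refine comm_inf htf hfp hi hxN ?_
  have h2 : A i ⊔ Subgroup.zpowers t ≤ Subgroup.Commensurable.commensurator (A i) :=
    sup_le (hAL.trans inf_le_left) ((Subgroup.zpowers_le).2 (hJ'J htJ).1)
  exact h2 hx

end

end Pool.Agent.J4H59.PI
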