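import Pool.Agent.J4H59.PG.Comb

/-!
# The modular function of the commensurator
-/

set_option autoImplicit false
set_option linter.unusedSectionVars false

open scoped Classical Pointwise

namespace Pool.Agent.J4H59.PI

open Pool.Agent.J4H59.PG

noncomputable section

variable {G : Type} [Group G]

/-- the generalised index -/
def qi (X Y : Subgroup G) : ℚ := (Y.relIndex X : ℚ) / (X.relIndex Y : ℚ)

theorem qi_eq {X Y D : Subgroup G} (hD : D ≤ X ⊓ Y) (hDX : D.relIndex X ≠ 0)
    : qi X Y = (D.relIndex X : ℚ) / (D.relIndex Y : ℚ) := by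
  have h1 : D.relIndex (X ⊓ Y) * Y.relIndex X = D.relIndex X := by
    rw [← Subgroup.inf_relIndex_left X Y]
    exact Subgroup.relIndex_mul_relIndex _ _ _ hD inf_le_left
  have h2 : D.relIndex (X ⊓ Y) * X.relIndex Y = D.relIndex Y := by
    rw [← Subgroup.inf_relIndex_right X Y]
    exact Subgroup.relIndex_mul_relIndex _ _ _ hD inf_le_right
  have h3 : ((D.relIndex (X ⊓ Y) : ℕ) : ℚ) ≠ 0 := by
    intro h
    have h : D.relIndex (X ⊓ Y) = 0 := by exact_mod_cast h
    rw [h, zero_mul] at h1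
    exact hDX h1.symm
  unfold qi
  rw [← h1, ← h2]
  push_cast
  rw [mul_div_mul_left _ _ h3]

theorem relIndex_inf3 {X Y Z : Subgroup G} (hY : Y.relIndex X ≠ 0) (hZ : Z.relIndex X ≠ 0) :
    (X ⊓ Y ⊓ Z).relIndex X ≠ 0 := by
  have h1 : (Y ⊓ Z).relIndex X ≠ 0 := Subgroup.relIndex_inf_ne_zero hY hZ
  have h2 : X ⊓ Y ⊓ Z = (Y ⊓ Z) ⊓ X := by
    rw [inf_assoc, inf_comm]
  rw [h2, Subgroup.inf_relIndex_right]
  exact h1

theorem qi_mul {X Y Z : Subgroup G} (hXY : Subgroup.Commensurable X Y)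
    (hYZ : Subgroup.Commensurable Y Z) : qi X Y * qi Y Z = qi X Z := by
  have hXZ : Subgroup.Commensurable X Z := hXY.trans hYZ
  set D := X ⊓ Y ⊓ Z with hD
  have h1 : D.relIndex X ≠ 0 := relIndex_inf3 hXY.2 hXZ.2
  have h2 : D.relIndex Y ≠ 0 := by
    have h3 : D = Y ⊓ X ⊓ Z := by rw [hD, inf_comm X Y]
    rw [h3]
    exact relIndex_inf3 hXY.1 hYZ.2
  rw [qi_eq (D := D) inf_le_left h1,
    qi_eq (D := D) (le_inf (inf_le_left.trans inf_le_right) inf_le_right) h2,
    qi_eq (D := D) (le_inf (inf_le_left.trans inf_le_left) inf_le_right) h1]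
  have h2' : (D.relIndex Y : ℚ) ≠ 0 := by exact_mod_cast h2
  exact div_mul_div_cancel₀ h2'

theorem qi_cc (g : G) (X Y : Subgroup G) : qi (cc g X) (cc g Y) = qi X Y := by
  unfold qi cc
  rw [Subgroup.relIndex_pointwise_smul, Subgroup.relIndex_pointwise_smul]

/-- the modular function -/
def mdl (N : Subgroup G) : Subgroup.Commensurable.commensurator N →* ℚ where
  toFun g := qi N (cc (g : G) N)
  map_one' := by
    have h1 : cc ((1 : Subgroup.Commensurable.commensurator N) : G) N = N := by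
      ext z
      rw [mem_cc, Subgroup.coe_one, inv_one, one_mul, mul_one]
    rw [h1]
    unfold qi
    rw [Subgroup.relIndex_self]
    norm_num
  map_mul' g h := by
    rw [Subgroup.coe_mul, cc_mul, ← qi_cc (g : G) N (cc (h : G) N)]
    exact (qi_mul (mem_comm.1 g.2).symm (cc_comm (mem_comm.1 h.2).symm)).symm

theorem mdl_pos (N : Subgroup G) (g : Subgroup.Commensurable.commensurator N) : 0 < mdl N g := by
  have h := mem_comm.1 g.2
  have h1 : 0 < ((cc (g : G) N).relIndex N : ℚ) := by exact_mod_cast Nat.pos_of_ne_zero h.1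
  have h2 : 0 < (N.relIndex (cc (g : G) N) : ℚ) := by exact_mod_cast Nat.pos_of_ne_zero h.2
  exact div_pos h1 h2

theorem cc_eq_self {N : Subgroup G} {n : G} (hn : n ∈ Subgroup.normalizer (N : Set G)) :
    cc n N = N := by
  ext z
  rw [mem_cc]
  have h1 := Subgroup.mem_normalizer_iff.1 hn (n⁻¹ * z * n)
  have h2 : n * (n⁻¹ * z * n) * n⁻¹ = z := by group
  rw [h2] at h1
  exact h1

/-- Elements of the commensurator preserve the index, if infinite cyclic quotients do not exist. -/
theorem unimod {N : Subgroup G} {t : G} (ht : t ∈ Subgroup.Commensurable.commensurator N)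
    (hkey : ∀ K : Subgroup G, N ≤ K → K ≤ N ⊔ Subgroup.zpowers t →
      N ⊔ Subgroup.zpowers t ≤ Subgroup.normalizer (K : Set G) →
      K.relIndex (N ⊔ Subgroup.zpowers t) = 0 → N.relIndex K ≠ 0) :
    N.relIndex (cc t N) = (cc t N).relIndex N := by
  have hNc : N ≤ Subgroup.Commensurable.commensurator N := by
    intro n hn
    rw [mem_comm, cc_eq_self (Subgroup.le_normalizer hn)]
  by_cases h1 : mdl N ⟨t, ht⟩ = 1
  · have h2 : ((cc t N).relIndex N : ℚ) / (N.relIndex (cc t N) : ℚ) = 1 := h1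
    have h3 : (N.relIndex (cc t N) : ℚ) ≠ 0 := by exact_mod_cast (mem_comm.1 ht).2
    rw [div_eq_one_iff_eq h3] at h2
    exact_mod_cast h2.symm
  · set H := N ⊔ Subgroup.zpowers t with hH
    have hHc : H ≤ Subgroup.Commensurable.commensurator N :=
      sup_le hNc ((Subgroup.zpowers_le).2 ht)
    set K : Subgroup G := (mdl N).ker.map (Subgroup.Commensurable.commensurator N).subtype ⊓ H
      with hK
    have hmem : ∀ x : G, x ∈ K ↔ ∃ hx : x ∈ Subgroup.Commensurable.commensurator N,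
        mdl N ⟨x, hx⟩ = 1 ∧ x ∈ H := by
      intro x
      constructor
      · rintro ⟨⟨y, hy, rfl⟩, hx⟩
        exact ⟨y.2, hy, hx⟩
      · rintro ⟨hx, h2, h3⟩
        exact ⟨⟨⟨x, hx⟩, h2, rfl⟩, h3⟩
    have hNK : N ≤ K := by
      intro n hn
      refine (hmem n).2 ⟨hNc hn, ?_, Subgroup.mem_sup_left hn⟩
      change qi N (cc n N) = 1
      rw [cc_eq_self (Subgroup.le_normalizer hn)]
      unfold qi
      rw [Subgroup.relIndex_self]
      norm_num
    have hKH : K ≤ H := inf_le_right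
    have hHK : H ≤ Subgroup.normalizer (K : Set G) := by
      intro g hg
      have hone : ∀ a ∈ H, ∀ x ∈ K, a * x * a⁻¹ ∈ K := by
        intro a ha x hx
        obtain ⟨hx1, hx2, hx3⟩ := (hmem x).1 hx
        refine (hmem _).2 ⟨Subgroup.mul_mem _ (Subgroup.mul_mem _ (hHc ha) hx1)
          (Subgroup.inv_mem _ (hHc ha)), ?_, H.mul_mem (H.mul_mem ha hx3) (H.inv_mem ha)⟩
        have h2 : (⟨a * x * a⁻¹, Subgroup.mul_mem _ (Subgroup.mul_mem _ (hHc ha) hx1)
          (Subgroup.inv_mem _ (hHc ha))⟩ : Subgroup.Commensurable.commensurator N) =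
            ⟨a, hHc ha⟩ * ⟨x, hx1⟩ * ⟨a, hHc ha⟩⁻¹ := rfl
        rw [h2, map_mul, map_mul, hx2, mul_one, ← map_mul, mul_inv_cancel, map_one]
      rw [Subgroup.mem_normalizer_iff]
      intro x
      constructor
      · exact hone g hg x
      · intro hx
        have h2 := hone g⁻¹ (H.inv_mem hg) _ hx
        have h3 : g⁻¹ * (g * x * g⁻¹) * g⁻¹⁻¹ = x := by group
        rwa [h3] at h2
    have htH : t ∈ H := Subgroup.mem_sup_right (Subgroup.mem_zpowers t)
    have hinf : K.relIndex H = 0 := by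
      by_contra hcon
      obtain ⟨e, he, -, he'⟩ := Subgroup.exists_pow_mem_of_relIndex_ne_zero hcon htH
      obtain ⟨hx1, hx2, -⟩ := (hmem _).1 he'.1
      have h2 : (⟨t ^ e, hx1⟩ : Subgroup.Commensurable.commensurator N) = ⟨t, ht⟩ ^ e := rfl
      rw [h2, map_pow] at hx2
      exact h1 ((pow_eq_one_iff_of_nonneg (mdl_pos N _).le he.ne').1 hx2)
    have hc := hkey K hNK hKH hHK hinf
    have h2 : cc t K = K := cc_eq_self (hHK htH)
    have h3 : (cc t N).relIndex K = N.relIndex K := by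
      have h4 : (cc t N).relIndex (cc t K) = N.relIndex K := Subgroup.relIndex_pointwise_smul _ _ _
      rwa [h2] at h4
    have h4 : cc t N ≤ K := by
      rw [← h2]
      exact (Subgroup.pointwise_smul_le_pointwise_smul_iff).2 hNK
    set D := N ⊓ cc t N with hD
    have h5 : D.relIndex N * N.relIndex K = D.relIndex K :=
      Subgroup.relIndex_mul_relIndex _ _ _ inf_le_left hNK
    have h6 : D.relIndex (cc t N) * (cc t N).relIndex K = D.relIndex K :=
      Subgroup.relIndex_mul_relIndex _ _ _ inf_le_right h4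
    rw [h3, ← h5] at h6
    have h7 := Nat.eq_of_mul_eq_mul_right (Nat.pos_of_ne_zero hc) h6
    rw [hD, Subgroup.inf_relIndex_left, Subgroup.inf_relIndex_right] at h7
    exact h7

end

end Pool.Agent.J4H59.PI
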