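import Pool.Agent.J4H59.PI.FreeZ
import Pool.Agent.J4H59.PI.Unimod
import Mathlib.GroupTheory.Schreier

/-!
# Quotients of subgroups of the commensurator: the final statement
-/

set_option autoImplicit false
set_option linter.unusedSectionVars false

open scoped Classical Pointwise

namespace Pool.Agent.J4H59.PI

open Pool.Agent.Helper386.PD3 Pool.Agent.J4H59.PD Pool.Agent.J4H59.PE Pool.Agent.J4H59.PF
open Pool.Agent.J4H59.PG Pool.Agent.Helper158

noncomputable section

variable {G : Type} [Group G] {ι : Type} {N K H : Subgroup G} {A : ι → Subgroup G}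

theorem fg_of_fi {K' L : Subgroup G} (hL : L.FG) (hKL : K' ≤ L) (h : K'.relIndex L ≠ 0) :
    K'.FG := by
  have h1 : Group.FG L := (Group.fg_iff_subgroup_fg L).2 hL
  have h2 : (K'.subgroupOf L).FiniteIndex := ⟨h⟩
  have h3 : Group.FG (K'.subgroupOf L) := inferInstance
  have h4 : (K'.subgroupOf L).FG := (Group.fg_iff_subgroup_fg _).1 h3
  obtain ⟨S, hS⟩ := h4
  refine ⟨S.image L.subtype, ?_⟩
  rw [Finset.coe_image, ← MonoidHom.map_closure, hS, Subgroup.map_subgroupOf_eq_of_le hKL]

theorem mem_of_fg {c : Set (Subgroup G)} (hne : c.Nonempty) (hc : IsChain (· ≤ ·) c)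
    (h : (sSup c : Subgroup G).FG) : (sSup c : Subgroup G) ∈ c := by
  obtain ⟨K₀, hK₀⟩ := hne
  have hex : ∀ F : Finset G, (F : Set G) ⊆ (sSup c : Subgroup G) → ∃ K ∈ c, (F : Set G) ⊆ K := by
    intro F
    induction F using Finset.induction_on with
    | empty =>
      intro _
      refine ⟨K₀, hK₀, ?_⟩
      rw [Finset.coe_empty]
      exact Set.empty_subset _
    | insert a F _ ih =>
      intro hF
      rw [Finset.coe_insert, Set.insert_subset_iff] at hF
      obtain ⟨K, hK, hFK⟩ := ih hF.2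
      obtain ⟨K', hK', haK'⟩ := (Subgroup.mem_sSup_of_directedOn ⟨K₀, hK₀⟩ hc.directedOn).1 hF.1
      rcases hc.total hK hK' with h1 | h1
      · refine ⟨K', hK', ?_⟩
        rw [Finset.coe_insert, Set.insert_subset_iff]
        exact ⟨haK', hFK.trans h1⟩
      · refine ⟨K, hK, ?_⟩
        rw [Finset.coe_insert, Set.insert_subset_iff]
        exact ⟨h1 haK', hFK⟩
  obtain ⟨F, hF⟩ := h
  obtain ⟨K, hK, hFK⟩ := hex F (by
    rw [← hF]
    exact Subgroup.subset_closure)
  have h1 : (sSup c : Subgroup G) = K := by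
    apply le_antisymm
    · rw [← hF, Subgroup.closure_le]
      exact hFK
    · exact le_sSup hK
  rw [h1]
  exact hK

theorem asc_le (hasc : Asc K H) : K ≤ H := by
  induction hasc with
  | refl => exact le_rfl
  | step K' L _ hKL _ ih => exact ih.trans hKL
  | fin K' L _ hKL _ ih => exact ih.trans hKL
  | union c hne hc _ ih =>
    obtain ⟨K', hK'⟩ := hne
    exact (ih K' hK').trans (le_sSup hK')

/-- A finitely generated group reached from `K` contains `K` with finite index, or there is a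
normal step with an infinite quotient, in a finitely generated group. -/
theorem asc_exists (hasc : Asc K H) : H.FG → K.relIndex H ≠ 0 ∨
    ∃ K' L : Subgroup G, K ≤ K' ∧ K' ≤ L ∧ L ≤ H ∧ L ≤ Subgroup.normalizer (K' : Set G) ∧ L.FG ∧
      K'.relIndex L = 0 := by
  induction hasc with
  | refl =>
    intro _
    left
    rw [Subgroup.relIndex_self]
    exact one_ne_zero
  | step K' L hK' hKL hLK ih =>
    intro hL
    by_cases h : K'.relIndex L = 0
    · exact Or.inr ⟨K', L, asc_le hK', hKL, le_rfl, hLK, hL, h⟩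
    · rcases ih (fg_of_fi hL hKL h) with h1 | ⟨K₁, L₁, h1, h2, h3, h4, h5, h6⟩
      · left
        rw [← Subgroup.relIndex_mul_relIndex K K' L (asc_le hK') hKL]
        exact mul_ne_zero h1 h
      · exact Or.inr ⟨K₁, L₁, h1, h2, h3.trans hKL, h4, h5, h6⟩
  | fin K' L hK' hKL h ih =>
    intro hL
    rcases ih (fg_of_fi hL hKL h) with h1 | ⟨K₁, L₁, h1, h2, h3, h4, h5, h6⟩
    · left
      rw [← Subgroup.relIndex_mul_relIndex K K' L (asc_le hK') hKL]
      exact mul_ne_zero h1 h
    · exact Or.inr ⟨K₁, L₁, h1, h2, h3.trans hKL, h4, h5, h6⟩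
  | union c hne hc hcK ih =>
    intro hL
    have hmem := mem_of_fg hne hc hL
    exact ih _ hmem hL

variable {P : ℕ → Type} [∀ i, AddCommGroup (P i)]
  [∀ i, Module (MonoidAlgebra ℤ G) (P i)] {d : ∀ i, P (i + 1) →ₗ[MonoidAlgebra ℤ G] P i}
  {ε : P 0 →+ ℤ}

theorem main_Z (hR : Reso P d ε) (m : ℕ) (hm : ∀ i, m < i → Subsingleton (P i))
    [∀ i, Module.Finite (MonoidAlgebra ℤ G) (P i)]
    [∀ i, Module.Projective (MonoidAlgebra ℤ G) (P i)]
    (hcoh : ∀ i, i ≠ 3 → Subsingleton (groupCohomology (Rep.leftRegular ℤ G) i))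
    (htop : Nonempty (groupCohomology (Rep.leftRegular ℤ G) 3 ≃+ ℤ))
    (N : Subgroup G) (ι : Type) [Finite ι] (A : ι → Subgroup G)
    (hinj : Function.Injective (Monoid.CoprodI.lift fun i => (A i).subtype))
    (hrange : (Monoid.CoprodI.lift fun i => (A i).subtype).range = N)
    (hAfg : ∀ i, (A i).FG)
    (hA : ∀ i, Nonempty (A i ≃* Multiplicative ℤ) ∨
      Subsingleton (groupCohomology (Rep.leftRegular ℤ (A i)) 1))
    (i : ι) (hi : A i ≠ ⊥) (hone : Subsingleton (groupCohomology (Rep.leftRegular ℤ (A i)) 1)) :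
    (∀ K H : Subgroup G, N ≤ K → Asc K H → H ≤ Subgroup.Commensurable.commensurator N →
      (H ≠ ⊤ → H.FG) → K.relIndex H = 0 →
      A i = N ∧ N.relIndex K ≠ 0 ∧ ∃ t ∈ H, t ∈ Subgroup.normalizer (N : Set G) ∧
        (∀ k : ℤ, k ≠ 0 → t ^ k ∉ K) ∧ (N ⊔ Subgroup.zpowers t).FiniteIndex) ∧
    ∀ t ∈ Subgroup.Commensurable.commensurator N,
      N.relIndex (cc t N) = (cc t N).relIndex N := by
  have hF : Fintype ι := Fintype.ofFinite ι
  have hle : ∀ i, A i ≤ N := by
    intro i a ha
    rw [← hrange]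
    exact ⟨Monoid.CoprodI.of (M := fun i => A i) (i := i) ⟨a, ha⟩,
      Monoid.CoprodI.lift_of (fi := fun i => (A i).subtype) _⟩
  have hsup : N = ⨆ i, A i := by
    rw [← hrange, Monoid.CoprodI.range_eq_iSup]
    exact iSup_congr fun i => Subgroup.range_subtype _
  have hNfg : N.FG := by
    rw [hsup]
    exact Subgroup.FG.iSup _ hAfg
  have hfree : IsFree fun i => (A i).subgroupOf N := by
    refine ⟨fun i => A i, fun i => inferInstance, fun i => Subgroup.inclusion (hle i), fun i => ?_,
      ?_, ?_⟩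
    · ext x
      rw [Subgroup.mem_subgroupOf]
      constructor
      · rintro ⟨a, rfl⟩
        exact a.2
      · intro hx
        exact ⟨⟨x, hx⟩, rfl⟩
    · have h1 : N.subtype.comp (Monoid.CoprodI.lift fun i => Subgroup.inclusion (hle i)) =
          Monoid.CoprodI.lift fun i => (A i).subtype := by
        refine Monoid.CoprodI.ext_hom _ _ fun i => ?_
        refine MonoidHom.ext fun a => ?_
        change ((Monoid.CoprodI.lift (fun i => Subgroup.inclusion (hle i)) (Monoid.CoprodI.of a) : N) : G) =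
          Monoid.CoprodI.lift (fun i => (A i).subtype) (Monoid.CoprodI.of a)
        rw [Monoid.CoprodI.lift_of, Monoid.CoprodI.lift_of]
        rfl
      intro x y hxy
      apply hinj
      rw [← h1]
      change ((Monoid.CoprodI.lift (fun i => Subgroup.inclusion (hle i)) x : N) : G) =
        ((Monoid.CoprodI.lift (fun i => Subgroup.inclusion (hle i)) y : N) : G)
      rw [hxy]
    · have h1 : N.subtype.comp (Monoid.CoprodI.lift fun i => Subgroup.inclusion (hle i)) =
          Monoid.CoprodI.lift fun i => (A i).subtype := by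
        refine Monoid.CoprodI.ext_hom _ _ fun i => ?_
        refine MonoidHom.ext fun a => ?_
        change ((Monoid.CoprodI.lift (fun i => Subgroup.inclusion (hle i)) (Monoid.CoprodI.of a) : N) : G) =
          Monoid.CoprodI.lift (fun i => (A i).subtype) (Monoid.CoprodI.of a)
        rw [Monoid.CoprodI.lift_of, Monoid.CoprodI.lift_of]
        rfl
      intro x
      have h2 : (x : G) ∈ (Monoid.CoprodI.lift fun i => (A i).subtype).range := by
        rw [hrange]
        exact x.2
      obtain ⟨v, hv⟩ := h2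
      refine ⟨v, Subtype.ext ?_⟩
      rw [← hv, ← h1]
      rfl
  obtain ⟨w, n, e0, e1, e2, e3, d0, d1, d2, hFull⟩ := exists_full hR m hm hcoh htop
  have htf := tf_int hR m hm
  have hfp : FPd N A := fpd_of htf hle hfree
  have hA' : ∀ i, Nonempty (A i ≃* Multiplicative ℤ) ∨ AllDer (G := A i) (RR (A i)) := fun i =>
    (hA i).imp_right allDer_RR
  have hfgG : Group.FG G := fg_of_low hFull.low
  have hGD : AllDer (G := G) (RR G) := allDer_RR (hcoh 1 (by norm_num))
  have hmain : ∀ K H : Subgroup G, N ≤ K → Asc K H →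
      H ≤ Subgroup.Commensurable.commensurator N → H.FG → K.relIndex H = 0 →
      A i = N ∧ N.relIndex K ≠ 0 ∧ ∃ t ∈ H, t ∈ Subgroup.normalizer (N : Set G) ∧
        (∀ k : ℤ, k ≠ 0 → t ^ k ∉ K) ∧ (N ⊔ Subgroup.zpowers t).FiniteIndex := by
    intro K H hNK hasc hcm hH hinf
    obtain ⟨K', L, h1, h2, h3, h4, h5, h6⟩ := (asc_exists hasc hH).resolve_left fun h => h hinf
    obtain ⟨F, hF⟩ := h5
    have hF' : L = K' ⊔ Subgroup.closure (F : Set G) := by
      rw [hF, sup_eq_right.2 h2]
    have hcm' : ∀ h ∈ L, (As N h).index ≠ 0 := fun h hh => as_of_comm (hcm (h3 hh))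
    have hNA : N ≤ A i := le_factor' hFull hfgG hGD htf hfp hAfg hA' hi (allDer_RR hone)
      (hNK.trans h1) h2 hcm' h4 hF' h6
    have hEq : A i = N := le_antisymm (hle i) hNA
    have hone' : AllDer (G := N) (RR N) := by
      have := allDer_RR hone
      rw [hEq] at this
      exact this
    have hinfi : Infinite N := by
      refine inf_of_ne_bot htf ?_
      rw [← hEq]
      exact hi
    obtain ⟨h7, t, h8, h9, h10, h11⟩ := main_line hFull hfgG hGD htf hNfg hinfi hone'
      (hNK.trans h1) h2 hcm' h4 hF' h6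
    exact ⟨hEq, mt (Subgroup.relIndex_eq_zero_of_le_right h1) h7, t, h3 h8, h9,
      fun k hk hkK => h10 k hk (h1 hkK), ⟨h11⟩⟩
  refine ⟨fun K H hNK hasc hcm hH hinf => ?_, fun t ht => ?_⟩
  · refine hmain K H hNK hasc hcm ?_ hinf
    by_cases h : H = ⊤
    · rw [h]
      exact (Group.fg_def.1 hfgG)
    · exact hH h
  · refine unimod ht fun K hNK hKH hHK hinf => ?_
    have hHc : N ⊔ Subgroup.zpowers t ≤ Subgroup.Commensurable.commensurator N := by
      refine sup_le (fun n hn => ?_) ((Subgroup.zpowers_le).2 ht)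
      rw [mem_comm, cc_eq_self (Subgroup.le_normalizer hn)]
    have hHfg : (N ⊔ Subgroup.zpowers t).FG := by
      refine Subgroup.FG.sup hNfg ⟨{t}, ?_⟩
      rw [Finset.coe_singleton, Subgroup.zpowers_eq_closure]
    exact (hmain K _ hNK (Asc.step K _ Asc.refl hKH hHK) hHc hHfg hinf).2.1

end

end Pool.Agent.J4H59.PI
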