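import Pool.Agent.J4H59.PI.ConeS
import Pool.Agent.J4H59.PI.Lvl
import Pool.Agent.J4H59.PF.Asc

/-!
# The cone of a ray
-/

set_option autoImplicit false
set_option linter.unusedSectionVars false

open scoped Classical

namespace Pool.Agent.J4H59.PI

open Pool.Agent.Helper386.PD3 Pool.Agent.J4H59.PD Pool.Agent.J4H59.PE Pool.Agent.J4H59.PF

noncomputable section

variable {G : Type} [Group G] {N K H : Subgroup G}

/-- the levels -/
def lvS (N : Subgroup G) (st : ℕ → G) : ℕ → Set (G ⧸ N)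
  | 0 => {((1 : G) : G ⧸ N)}
  | k + 1 => {c | ∃ n ∈ N, ∃ c' ∈ lvS N st k, c = n • st k • c'}

theorem lvS_pu (hNK : N ≤ K) (r : Ray K) (h0 : r.h 0 = 1) (k : ℕ) {c : G ⧸ N}
    (hc : c ∈ lvS N r.st k) : pu K c = (r.h k : G ⧸ K) := by
  induction k generalizing c with
  | zero =>
    have hc : c = ((1 : G) : G ⧸ N) := hc
    rw [hc, pu_mk hNK, h0]
  | succ k ih =>
    obtain ⟨n, hn, c', hc', rfl⟩ := hc
    rw [pu_smul hNK, pu_smul hNK, ih hc', r.step, r.fix (hNK hn)]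

theorem st_mem (r : Ray K) (hH : ∀ k, r.h k ∈ H) (k : ℕ) : r.st k ∈ H := by
  have h1 : r.st k = r.h (k + 1) * (r.h k)⁻¹ := by
    rw [r.hh, mul_inv_cancel_right]
  rw [h1]
  exact H.mul_mem (hH _) (H.inv_mem (hH _))

theorem lvS_H (hNH : N ≤ H) (r : Ray K) (hH : ∀ k, r.h k ∈ H) (k : ℕ) {c : G ⧸ N}
    (hc : c ∈ lvS N r.st k) : ∃ h ∈ H, c = ((h : G) : G ⧸ N) := by
  induction k generalizing c with
  | zero => exact ⟨1, H.one_mem, hc⟩
  | succ k ih =>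
    obtain ⟨n, hn, c', hc', rfl⟩ := hc
    obtain ⟨h, hh, rfl⟩ := ih hc'
    exact ⟨n * (r.st k * h), H.mul_mem (hNH hn) (H.mul_mem (st_mem r hH k) hh), rfl⟩

theorem lvS_fin (hNH : N ≤ H) (hcm : ∀ h ∈ H, (As N h).index ≠ 0) (r : Ray K)
    (hH : ∀ k, r.h k ∈ H) (k : ℕ) : (lvS N r.st k).Finite := by
  induction k with
  | zero => exact Set.finite_singleton _
  | succ k ih =>
    have h1 : ∀ c' ∈ lvS N r.st k, {c : G ⧸ N | ∃ n ∈ N, c = n • r.st k • c'}.Finite := by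
      intro c' hc'
      obtain ⟨h, hh, rfl⟩ := lvS_H hNH r hH k hc'
      exact orb_fin (h := r.st k * h) (hcm _ (H.inv_mem (H.mul_mem (st_mem r hH k) hh)))
    refine (ih.biUnion h1).subset ?_
    rintro c ⟨n, hn, c', hc', rfl⟩
    exact Set.mem_iUnion₂.2 ⟨c', hc', n, hn, rfl⟩

/-- the cone of a ray -/
def rayCone (hNK : N ≤ K) (r : Ray K) (h0 : r.h 0 = 1) (hH : ∀ k, r.h k ∈ H) : CoS N where
  st := r.st
  S := r.S.filter (· ∈ H)
  hst k := Finset.mem_filter.2 ⟨r.hst k, st_mem r hH k⟩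
  L := lvS N r.st
  hN := by
    intro k n hn c hc
    cases k with
    | zero =>
      have hc : c = ((1 : G) : G ⧸ N) := hc
      subst hc
      change ((n * 1 : G) : G ⧸ N) = ((1 : G) : G ⧸ N)
      rw [mul_one, eq_comm, QuotientGroup.eq, inv_one, one_mul]
      exact hn
    | succ k =>
      obtain ⟨n', hn', c', hc', rfl⟩ := hc
      exact ⟨n * n', N.mul_mem hn hn', c', hc', (mul_smul _ _ _).symm⟩
  ht := by
    intro k c hc
    exact ⟨1, N.one_mem, c, hc, (one_smul _ _).symm⟩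
  hd := by
    intro k l c hk hl
    exact r.hinj k l ((lvS_pu hNK r h0 k hk).symm.trans (lvS_pu hNK r h0 l hl))

theorem rayCone_fin (hNK : N ≤ K) (hNH : N ≤ H) (hcm : ∀ h ∈ H, (As N h).index ≠ 0) (r : Ray K)
    (h0 : r.h 0 = 1) (hH : ∀ k, r.h k ∈ H) (z : G ⧸ K) :
    {c | c ∈ (rayCone hNK r h0 hH).R ∧ pu K c = z}.Finite := by
  by_cases hz : ∃ k, (r.h k : G ⧸ K) = z
  · obtain ⟨k, rfl⟩ := hz
    refine (lvS_fin hNH hcm r hH k).subset ?_
    rintro c ⟨⟨l, hl⟩, hc⟩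
    have h1 : l = k := r.hinj _ _ ((lvS_pu hNK r h0 l hl).symm.trans hc)
    rw [← h1]
    exact hl
  · convert Set.finite_empty
    ext c
    rw [Set.mem_ofPred_eq, Set.mem_empty_iff_false, iff_false]
    rintro ⟨⟨l, hl⟩, hc⟩
    exact hz ⟨l, (lvS_pu hNK r h0 l hl).symm.trans hc⟩

/-- elements of a subgroup meeting finitely many cells over each coset -/
theorem eq_one_of_cells (htf : ∀ (x : G) (k : ℤ), k ≠ 0 → x ^ k = 1 → x = 1) {B : Subgroup G}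
    (hbot : B ⊓ N = ⊥) {b : G} (hb : b ∈ B) (y : G) {F : Set (G ⧸ N)} (hF : F.Finite)
    (h : ∀ k : ℕ, ((y * b ^ k : G) : G ⧸ N) ∈ F) : b = 1 := by
  have hfi : Finite F := hF
  obtain ⟨i, j, hij, heq⟩ := Finite.exists_ne_map_eq_of_infinite (fun k : ℕ => (⟨_, h k⟩ : F))
  have heq : ((y * b ^ i : G) : G ⧸ N) = ((y * b ^ j : G) : G ⧸ N) := congrArg Subtype.val heq
  rw [QuotientGroup.eq] at heq
  have h2 : (y * b ^ i)⁻¹ * (y * b ^ j) = b ^ ((j : ℤ) - i) := by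
    rw [zpow_sub, zpow_natCast, zpow_natCast, mul_inv_rev]
    have h3 : (b ^ i)⁻¹ * b ^ j = b ^ j * (b ^ i)⁻¹ := by
      rw [← zpow_natCast, ← zpow_natCast, ← zpow_neg, ← zpow_add, ← zpow_add, add_comm]
    rw [← h3]
    group
  rw [h2] at heq
  have h4 : b ^ ((j : ℤ) - i) ∈ B ⊓ N := ⟨Subgroup.zpow_mem _ hb _, heq⟩
  rw [hbot, Subgroup.mem_bot] at h4
  exact htf _ _ (by
    rw [sub_ne_zero]
    exact_mod_cast hij.symm) h4

/-- the two cones of a line -/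
theorem line_opp (hNK : N ≤ K) (hNH : N ≤ H) (hcm : ∀ h ∈ H, (As N h).index ≠ 0) (v : Ln K)
    (hp0 : v.pos.h 0 = 1) (hpH : ∀ k, v.pos.h k ∈ H) (hm0 : v.neg.h 0 = 1)
    (hmH : ∀ k, v.neg.h k ∈ H) (g : G) :
    {c | c ∈ (rayCone hNK v.pos hp0 hpH).R ∧ g • c ∈ (rayCone hNK v.neg hm0 hmH).R}.Finite := by
  obtain ⟨J, hJ⟩ := v.hj g
  refine ((Finset.range (J + 1)).finite_toSet.biUnion fun k _ =>
    lvS_fin hNH hcm v.pos hpH k).subset ?_
  rintro c ⟨⟨k, hk⟩, ⟨l, hl⟩⟩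
  refine Set.mem_iUnion₂.2 ⟨k, ?_, hk⟩
  have h1 := lvS_pu hNK v.pos hp0 k hk
  have h2 := lvS_pu hNK v.neg hm0 l hl
  rw [pu_smul hNK, h1] at h2
  have h3 := hJ k (-(l : ℤ)) h2
  rw [Finset.coe_range, Set.mem_Iio]
  omega

/-- If finitely many translates of the two cones cover everything. -/
theorem cov_line (hNK : N ≤ K) (hKH : K ≤ H) (hcm : ∀ h ∈ H, (As N h).index ≠ 0) (v : Ln K)
    (hp0 : v.pos.h 0 = 1) (hpH : ∀ k, v.pos.h k ∈ H) (hm0 : v.neg.h 0 = 1)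
    (hmH : ∀ k, v.neg.h k ∈ H) {T : Finset G}
    (hT : ∀ y : G ⧸ N, ∃ g ∈ T, g⁻¹ • y ∈
      (rayCone hNK v.pos hp0 hpH).R ∪ (rayCone hNK v.neg hm0 hmH).R) :
    H.index ≠ 0 ∧ N.relIndex K ≠ 0 := by
  have hNH : N ≤ H := hNK.trans hKH
  have hRH : ∀ c ∈ (rayCone hNK v.pos hp0 hpH).R ∪ (rayCone hNK v.neg hm0 hmH).R,
      ∃ h ∈ H, c = ((h : G) : G ⧸ N) := by
    rintro c (⟨k, hk⟩ | ⟨k, hk⟩)
    · exact lvS_H hNH v.pos hpH k hk
    · exact lvS_H hNH v.neg hmH k hk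
  constructor
  · have hfin : Finite (G ⧸ H) := by
      refine Set.finite_univ_iff.1 ((T.finite_toSet.image fun g : G => (g : G ⧸ H)).subset ?_)
      rintro c -
      induction c using QuotientGroup.induction_on with
      | H y =>
        obtain ⟨g, hg, h1⟩ := hT (y : G ⧸ N)
        obtain ⟨h, hh, hh'⟩ := hRH _ h1
        have hh' : ((g⁻¹ * y : G) : G ⧸ N) = (h : G ⧸ N) := hh'
        rw [QuotientGroup.eq] at hh'
        refine ⟨g, hg, ?_⟩
        change (g : G ⧸ H) = (y : G ⧸ H)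
        rw [QuotientGroup.eq]
        have h2 : g⁻¹ * y = h * ((g⁻¹ * y)⁻¹ * h)⁻¹ := by group
        rw [h2]
        exact H.mul_mem hh (H.inv_mem (hNH hh'))
    exact Subgroup.index_ne_zero_of_finite
  · let F : G → Set (G ⧸ N) := fun g => (fun c => g • c) ''
      ({c | c ∈ (rayCone hNK v.pos hp0 hpH).R ∧ pu K c = ((g⁻¹ : G) : G ⧸ K)} ∪
        {c | c ∈ (rayCone hNK v.neg hm0 hmH).R ∧ pu K c = ((g⁻¹ : G) : G ⧸ K)})
    have hF : ∀ g, (F g).Finite := fun g =>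
      ((rayCone_fin hNK hNH hcm v.pos hp0 hpH _).union
        (rayCone_fin hNK hNH hcm v.neg hm0 hmH _)).image _
    have hfin2 : (⋃ g ∈ T, F g).Finite := Set.Finite.biUnion T.finite_toSet fun g _ => hF g
    have hfinK : Finite (K ⧸ N.subgroupOf K) := by
      let f : K ⧸ N.subgroupOf K → G ⧸ N := fun q => (((Quotient.out q : K) : G) : G ⧸ N)
      have hf : Function.Injective f := by
        intro q q' hqq
        have hqq : (((Quotient.out q : K) : G) : G ⧸ N) =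
          (((Quotient.out q' : K) : G) : G ⧸ N) := hqq
        rw [QuotientGroup.eq] at hqq
        rw [← Quotient.out_eq' q, ← Quotient.out_eq' q']
        change (QuotientGroup.mk (Quotient.out q : K) : K ⧸ N.subgroupOf K) =
          QuotientGroup.mk (Quotient.out q' : K)
        rw [QuotientGroup.eq, Subgroup.mem_subgroupOf]
        exact hqq
      have h2 : (Set.univ : Set (K ⧸ N.subgroupOf K)).Finite := by
        refine Set.Finite.of_finite_image (f := f) (hfin2.subset ?_) hf.injOn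
        rintro _ ⟨q, -, rfl⟩
        obtain ⟨g, hg, h1⟩ := hT (((Quotient.out q : K) : G) : G ⧸ N)
        refine Set.mem_iUnion₂.2 ⟨g, hg, g⁻¹ • (((Quotient.out q : K) : G) : G ⧸ N), ?_,
          smul_inv_smul _ _⟩
        have h3 : pu K (g⁻¹ • (((Quotient.out q : K) : G) : G ⧸ N)) = ((g⁻¹ : G) : G ⧸ K) := by
          rw [pu_smul hNK, pu_mk hNK]
          change ((g⁻¹ * ((Quotient.out q : K) : G) : G) : G ⧸ K) = _
          exact mk_mulK _ (Quotient.out q : K).2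
        rcases h1 with h1 | h1
        · exact Or.inl ⟨h1, h3⟩
        · exact Or.inr ⟨h1, h3⟩
      exact Set.finite_univ_iff.1 h2
    exact Subgroup.index_ne_zero_of_finite (H := N.subgroupOf K)

/-- small subgroups meet `K` trivially -/
theorem small_line (htf : ∀ (x : G) (k : ℤ), k ≠ 0 → x ^ k = 1 → x = 1) (hNK : N ≤ K)
    (hNH : N ≤ H) (hcm : ∀ h ∈ H, (As N h).index ≠ 0) (v : Ln K)
    (hp0 : v.pos.h 0 = 1) (hpH : ∀ k, v.pos.h k ∈ H) (hm0 : v.neg.h 0 = 1)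
    (hmH : ∀ k, v.neg.h k ∈ H) {B : Subgroup G} (hbot : B ⊓ N = ⊥) (y : G)
    (hB : ∃ T : Finset G, ∀ b ∈ B, ∃ g ∈ T, g⁻¹ • ((y * b : G) : G ⧸ N) ∈
      (rayCone hNK v.pos hp0 hpH).R ∪ (rayCone hNK v.neg hm0 hmH).R) : B ⊓ K = ⊥ := by
  obtain ⟨T, hT⟩ := hB
  rw [eq_bot_iff]
  rintro b ⟨hb, hbK⟩
  rw [Subgroup.mem_bot]
  let F : G → Set (G ⧸ N) := fun g => (fun c => g • c) ''
      ({c | c ∈ (rayCone hNK v.pos hp0 hpH).R ∧ pu K c = ((g⁻¹ * y : G) : G ⧸ K)} ∪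
        {c | c ∈ (rayCone hNK v.neg hm0 hmH).R ∧ pu K c = ((g⁻¹ * y : G) : G ⧸ K)})
  have hF : ∀ g, (F g).Finite := fun g =>
      ((rayCone_fin hNK hNH hcm v.pos hp0 hpH _).union
        (rayCone_fin hNK hNH hcm v.neg hm0 hmH _)).image _
  refine eq_one_of_cells htf hbot hb y (F := ⋃ g ∈ T, F g)
    (Set.Finite.biUnion T.finite_toSet fun g _ => hF g) fun k => ?_
  obtain ⟨g, hg, h1⟩ := hT (b ^ k) (Subgroup.pow_mem _ hb k)
  refine Set.mem_iUnion₂.2 ⟨g, hg, g⁻¹ • ((y * b ^ k : G) : G ⧸ N), ?_, smul_inv_smul _ _⟩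
  have h3 : pu K (g⁻¹ • ((y * b ^ k : G) : G ⧸ N)) = ((g⁻¹ * y : G) : G ⧸ K) := by
    rw [pu_smul hNK, pu_mk hNK]
    change ((g⁻¹ * (y * b ^ k) : G) : G ⧸ K) = _
    rw [← mul_assoc]
    exact mk_mulK _ (K.pow_mem hbK k)
  rcases h1 with h1 | h1
  · exact Or.inl ⟨h1, h3⟩
  · exact Or.inr ⟨h1, h3⟩

end

end Pool.Agent.J4H59.PI
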